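import Mathlib

/-! Relations in an algebra with two elements satisfying the q-Serre relations (p = q^2). -/

namespace Pool.Agent.TH35.QRel

set_option linter.unusedSimpArgs false
set_option linter.unusedVariables false

variable {K : Type*} [Field K] {A : Type*} [Ring A] [Algebra K A]

/-- The first imaginary root vector. -/
def D1 (p : K) (x y : A) : A := x * y - p⁻¹ • (y * x)

/-- Real root vectors of the first kind. -/
def aa (p : K) (x y : A) : ℕ → A
  | 0 => x
  | n+1 => D1 p x y * aa p x y n - aa p x y n * D1 p x y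

/-- Real root vectors of the second kind. -/
def bb (p : K) (x y : A) : ℕ → A
  | 0 => y
  | n+1 => bb p x y n * D1 p x y - D1 p x y * bb p x y n

/-- Imaginary root vectors. -/
def DD (p : K) (x y : A) : ℕ → A
  | 0 => algebraMap K A (-(p - p⁻¹)⁻¹)
  | n+1 => aa p x y n * y - p⁻¹ • (y * aa p x y n)

/-- The mixed brackets. -/
def CC (p : K) (x y : A) (i j : ℕ) : A :=
  aa p x y i * bb p x y j - p⁻¹ • (bb p x y j * aa p x y i)

/-- q-Serre relation, cubic in the first argument. -/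
def Serre (p : K) (x y : A) : Prop :=
  x * x * x * y - (p + 1 + p⁻¹) • (x * x * y * x) + (p + 1 + p⁻¹) • (x * y * x * x)
    - y * x * x * x = 0

theorem aa_succ (p : K) (x y : A) (n : ℕ) :
    aa p x y (n+1) = D1 p x y * aa p x y n - aa p x y n * D1 p x y := rfl

theorem bb_succ (p : K) (x y : A) (n : ℕ) :
    bb p x y (n+1) = bb p x y n * D1 p x y - D1 p x y * bb p x y n := rfl

theorem DD_succ (p : K) (x y : A) (n : ℕ) :
    DD p x y (n+1) = aa p x y n * y - p⁻¹ • (y * aa p x y n) := rfl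

theorem aa_zero (p : K) (x y : A) : aa p x y 0 = x := rfl
theorem bb_zero (p : K) (x y : A) : bb p x y 0 = y := rfl

theorem DD_one (p : K) (x y : A) : DD p x y 1 = D1 p x y := rfl

theorem r00 (p : K) (hp : p ≠ 0) (x y : A) (h : Serre p x y) :
    aa p x y 0 * aa p x y 1 - p • (aa p x y 1 * aa p x y 0) = 0 := by
  unfold Serre at h
  simp only [aa, D1]
  linear_combination (norm := skip) - h
  simp only [mul_sub, sub_mul, mul_add, add_mul, smul_sub, smul_add, mul_smul_comm,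
    smul_mul_assoc, smul_smul, mul_assoc]
  match_scalars <;> field_simp <;> ring

/-- One step for the relation `a_k a_{k+1} = p a_{k+1} a_k`. -/
theorem rstep (p : K) (hp : p ≠ 0) (D D2 a0 a1 a2 : A)
    (h1 : a1 = D * a0 - a0 * D) (h2 : a2 = D * a1 - a1 * D)
    (E0 : D2 * a0 - a0 * D2 = p⁻¹ • (D * a1) - p • (a1 * D))
    (E1 : D2 * a1 - a1 * D2 = p⁻¹ • (D * a2) - p • (a2 * D))
    (h : a0 * a1 - p • (a1 * a0) = 0) :
    (p + p⁻¹) • (a1 * a2 - p • (a2 * a1)) = 0 := by
  subst h2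
  subst h1
  linear_combination (norm := skip) p⁻¹ • (D * D * h - 2 * (D * h * D) + h * D * D)
    - (p - p⁻¹) • ((D * h - h * D) * D) - (D2 * h - h * D2)
    + (E0 * (D * a0 - a0 * D) + a0 * E1 - p • (E1 * a0) - p • ((D * a0 - a0 * D) * E0))
  simp only [two_mul, mul_sub, sub_mul, mul_add, add_mul, smul_sub, smul_add, mul_smul_comm,
    smul_mul_assoc, smul_smul, mul_assoc, mul_zero, zero_mul, smul_zero]
  match_scalars <;> field_simp <;> ring

/-- Shift of an exchange relation by the derivation `[D, -]`. -/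
theorem Fshift (p : K) (D X Y a0 : A) (hX : D * X = X * D) (hY : D * Y = Y * D)
    (E0 : X * a0 - a0 * X = p⁻¹ • (Y * (D * a0 - a0 * D)) - p • ((D * a0 - a0 * D) * Y)) :
    X * (D * a0 - a0 * D) - (D * a0 - a0 * D) * X
      = p⁻¹ • (Y * (D * (D * a0 - a0 * D) - (D * a0 - a0 * D) * D))
        - p • ((D * (D * a0 - a0 * D) - (D * a0 - a0 * D) * D) * Y) := by
  linear_combination (norm := skip) D * E0 - E0 * D - hX * a0 + a0 * hX
    + p⁻¹ • (hY * (D * a0 - a0 * D)) - p • ((D * a0 - a0 * D) * hY)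
  simp only [two_mul, mul_sub, sub_mul, mul_add, add_mul, smul_sub, smul_add, mul_smul_comm,
    smul_mul_assoc, smul_smul, mul_assoc, mul_zero, zero_mul, smul_zero]
  match_scalars <;> ring

theorem adR (p : K) (hp : p ≠ 0) (y u u' v v' : A)
    (h : u * v' - p • (v' * u) + v * u' - p • (u' * v) = 0) :
    ((v' * y - p⁻¹ • (y * v')) * u - u * (v' * y - p⁻¹ • (y * v'))
      - p⁻¹ • ((v * y - p⁻¹ • (y * v)) * u') + p • (u' * (v * y - p⁻¹ • (y * v))))
    + ((u' * y - p⁻¹ • (y * u')) * v - v * (u' * y - p⁻¹ • (y * u'))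
      - p⁻¹ • ((u * y - p⁻¹ • (y * u)) * v') + p • (v' * (u * y - p⁻¹ • (y * u)))) = 0 := by
  linear_combination (norm := skip) - h * y + p⁻¹ • (p⁻¹ • (y * h))
  simp only [two_mul, mul_sub, sub_mul, mul_add, add_mul, smul_sub, smul_add, mul_smul_comm,
    smul_mul_assoc, smul_smul, mul_assoc, mul_zero, zero_mul, smul_zero]
  match_scalars <;> field_simp <;> ring

/-- The case `F(1,0)`. -/
theorem adr (p : K) (hp : p ≠ 0) (y x a1 : A) (h : x * a1 - p • (a1 * x) = 0) :
    (a1 * y - p⁻¹ • (y * a1)) * x - x * (a1 * y - p⁻¹ • (y * a1))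
      = p⁻¹ • ((x * y - p⁻¹ • (y * x)) * a1) - p • (a1 * (x * y - p⁻¹ • (y * x))) := by
  linear_combination (norm := skip) - h * y + p⁻¹ • (p⁻¹ • (y * h))
  simp only [two_mul, mul_sub, sub_mul, mul_add, add_mul, smul_sub, smul_add, mul_smul_comm,
    smul_mul_assoc, smul_smul, mul_assoc, mul_zero, zero_mul, smul_zero]
  match_scalars <;> field_simp <;> ring

/-- The three term recurrence for `[D_k, C_{ij}]`. -/
theorem recur (p : K) (hp : p ≠ 0) (X Y Z a a' b b' : A)
    (hXa : X * a - a * X = p⁻¹ • (Y * a') - p • (a' * Y))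
    (hXb : X * b - b * X = p • (Y * b') - p⁻¹ • (b' * Y))
    (hYa : Y * a - a * Y = p⁻¹ • (Z * a') - p • (a' * Z))
    (hYb : Y * b - b * Y = p • (Z * b') - p⁻¹ • (b' * Z)) :
    X * (a * b - p⁻¹ • (b * a)) - (a * b - p⁻¹ • (b * a)) * X
      = p⁻¹ • (Y * (a' * b - p⁻¹ • (b * a'))) + p • (Y * (a * b' - p⁻¹ • (b' * a)))
        - p • ((a' * b - p⁻¹ • (b * a')) * Y) - p⁻¹ • ((a * b' - p⁻¹ • (b' * a)) * Y)
        - (Z * (a' * b' - p⁻¹ • (b' * a')) - (a' * b' - p⁻¹ • (b' * a')) * Z) := by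
  linear_combination (norm := skip) hXa * b + a * hXb - p⁻¹ • (hXb * a) - p⁻¹ • (b * hXa)
    - p • (a' * hYb) - p • (hYa * b') + p⁻¹ • (p⁻¹ • (b' * hYa)) + p⁻¹ • (p⁻¹ • (hYb * a'))
  simp only [two_mul, mul_sub, sub_mul, mul_add, add_mul, smul_sub, smul_add, mul_smul_comm,
    smul_mul_assoc, smul_smul, mul_assoc, mul_zero, zero_mul, smul_zero]
  match_scalars <;> field_simp <;> ring

end Pool.Agent.TH35.QRel
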