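import Mathlib
import Pool.Agent.TH35.QRelA

/-! The Damiani type relations for the imaginary root vectors, derived from the q-Serre
relations. -/

namespace Pool.Agent.TH35.QRel

set_option linter.unusedSimpArgs false
set_option linter.unusedVariables false

open MulOpposite

variable {K : Type*} [Field K] {A : Type*} [Ring A] [Algebra K A]

/-- Exchange relation of the imaginary vectors with the first real vectors. -/
def FA (p : K) (x y : A) (n m : ℕ) : Prop :=
  DD p x y (n+1) * aa p x y m - aa p x y m * DD p x y (n+1)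
    = p⁻¹ • (DD p x y n * aa p x y (m+1)) - p • (aa p x y (m+1) * DD p x y n)

/-- Exchange relation of the imaginary vectors with the second real vectors. -/
def FB (p : K) (x y : A) (n m : ℕ) : Prop :=
  DD p x y (n+1) * bb p x y m - bb p x y m * DD p x y (n+1)
    = p • (DD p x y n * bb p x y (m+1)) - p⁻¹ • (bb p x y (m+1) * DD p x y n)

/-- Quadratic relation of the first real vectors. -/
def RA (p : K) (x y : A) (k l : ℕ) : Prop :=
  aa p x y l * aa p x y (k+1) - p • (aa p x y (k+1) * aa p x y l)
    + aa p x y k * aa p x y (l+1) - p • (aa p x y (l+1) * aa p x y k) = 0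

theorem op_D1 (p : K) (x y : A) : D1 p (op y) (op x) = op (D1 p x y) := by
  simp only [D1, op_sub, op_mul, op_smul]

theorem op_aa (p : K) (x y : A) (n : ℕ) : aa p (op y) (op x) n = op (bb p x y n) := by
  induction n with
  | zero => rfl
  | succ n ih => rw [aa_succ, bb_succ, ih, op_D1]; simp only [op_sub, op_mul]

theorem op_bb (p : K) (x y : A) (n : ℕ) : bb p (op y) (op x) n = op (aa p x y n) := by
  induction n with
  | zero => rfl
  | succ n ih => rw [aa_succ, bb_succ, ih, op_D1]; simp only [op_sub, op_mul]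

theorem op_DD_succ (p : K) (x y : A) (n : ℕ) :
    DD p (op y) (op x) (n+1) = op (CC p x y 0 n) := by
  rw [DD_succ, op_aa, CC]; simp only [op_sub, op_mul, op_smul, aa_zero]

theorem op_DD_zero (p : K) (x y : A) :
    DD p (op y) (op x) 0 = op (DD p x y 0) := rfl

theorem op_Serre (p : K) (x y : A) (h : Serre p y x) : Serre p (op y) (op x) := by
  unfold Serre at h ⊢
  have h2 := congrArg op h
  simp only [op_sub, op_add, op_mul, op_smul, op_zero, mul_assoc] at h2 ⊢
  linear_combination (norm := skip) - h2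
  match_scalars <;> ring

theorem CC_zero_right (p : K) (x y : A) (i : ℕ) : CC p x y i 0 = DD p x y (i+1) := rfl

theorem nablaC (p : K) (x y : A) (i j : ℕ) :
    D1 p x y * CC p x y i j - CC p x y i j * D1 p x y
      = CC p x y (i+1) j - CC p x y i (j+1) := by
  simp only [CC, aa_succ, bb_succ]
  generalize D1 p x y = D
  generalize aa p x y i = a
  generalize bb p x y j = b
  simp only [two_mul, mul_sub, sub_mul, mul_add, add_mul, smul_sub, smul_add, mul_smul_comm,
    smul_mul_assoc, smul_smul, mul_assoc, mul_zero, zero_mul, smul_zero]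
  match_scalars <;> ring

/-- All imaginary vectors up to level `N` commute with the first one. -/
def PP (p : K) (x y : A) (N : ℕ) : Prop :=
  ∀ k ≤ N, D1 p x y * DD p x y k = DD p x y k * D1 p x y

theorem PP_one (p : K) (x y : A) : PP p x y 1 := by
  intro k hk
  interval_cases k
  · simp only [DD]; exact (Algebra.commutes _ _).symm
  · rfl

theorem CC_eq (p : K) (x y : A) (N : ℕ) (hP : PP p x y N) :
    ∀ j i, i + j ≤ N → CC p x y i j = DD p x y (i+j+1) := by
  intro j
  induction j with
  | zero => intro i _; rfl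
  | succ j ih =>
    intro i hij
    have h1 := ih i (by omega)
    have h2 := ih (i+1) (by omega)
    have h3 := nablaC p x y i j
    rw [h1, hP (i+j+1) (by omega), sub_self] at h3
    have h4 := (sub_eq_zero.mp h3.symm)
    rw [← h4, h2]
    congr 1
    omega

variable (p : K) (hp : p ≠ 0) (hroot : ∀ n : ℕ, 0 < n → p ^ n ≠ 1)

include hp hroot in
theorem kappa_ne : p - p⁻¹ ≠ 0 := by
  intro h
  have h2 : p * (p - p⁻¹) = p ^ 2 - 1 := by field_simp
  rw [h, mul_zero] at h2
  exact hroot 2 (by norm_num) (sub_eq_zero.mp h2.symm)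

include hp hroot in
theorem ppr_ne : p + p⁻¹ ≠ 0 := by
  intro h
  have h2 : (p^2 - 1) * p * (p + p⁻¹) = p ^ 4 - 1 := by field_simp; ring
  rw [h, mul_zero] at h2
  exact hroot 4 (by norm_num) (sub_eq_zero.mp h2.symm)

include hp hroot in
theorem three_ne : p + p⁻¹ + 1 ≠ 0 := by
  intro h
  have h2 : (p - 1) * p * (p + p⁻¹ + 1) = p ^ 3 - 1 := by field_simp; ring
  rw [h, mul_zero] at h2
  exact hroot 3 (by norm_num) (sub_eq_zero.mp h2.symm)

include hp hroot in
theorem FA_zero (x y : A) (m : ℕ) : FA p x y 0 m := by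
  unfold FA
  have hk := kappa_ne p hp hroot
  have h1 : DD p x y 0 = (-(p - p⁻¹)⁻¹) • (1 : A) := by
    rw [DD, Algebra.algebraMap_eq_smul_one]
  rw [h1, DD_one, ← aa_succ]
  simp only [smul_mul_assoc, mul_smul_comm, one_mul, mul_one, smul_smul]
  rw [← sub_smul]
  have h2 : p⁻¹ * -(p - p⁻¹)⁻¹ - p * -(p - p⁻¹)⁻¹ = 1 := by
    have : p⁻¹ * -(p - p⁻¹)⁻¹ - p * -(p - p⁻¹)⁻¹ = (p - p⁻¹) * (p - p⁻¹)⁻¹ := by ring
    rw [this, mul_inv_cancel₀ hk]
  rw [h2, one_smul]

include hp hroot in
theorem FB_zero (x y : A) (m : ℕ) : FB p x y 0 m := by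
  unfold FB
  have hk := kappa_ne p hp hroot
  have h1 : DD p x y 0 = (-(p - p⁻¹)⁻¹) • (1 : A) := by
    rw [DD, Algebra.algebraMap_eq_smul_one]
  rw [h1, DD_one]
  have h3 : D1 p x y * bb p x y m - bb p x y m * D1 p x y = - bb p x y (m+1) := by
    rw [bb_succ]; abel
  rw [h3]
  simp only [smul_mul_assoc, mul_smul_comm, one_mul, mul_one, smul_smul]
  rw [← sub_smul]
  have h2 : p * -(p - p⁻¹)⁻¹ - p⁻¹ * -(p - p⁻¹)⁻¹ = -1 := by
    have : p * -(p - p⁻¹)⁻¹ - p⁻¹ * -(p - p⁻¹)⁻¹ = -((p - p⁻¹) * (p - p⁻¹)⁻¹) := by ring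
    rw [this, mul_inv_cancel₀ hk]
  rw [h2, neg_smul, one_smul]

include hp in
theorem FA_one_zero (x y : A) (hx : Serre p x y) : FA p x y 1 0 := by
  unfold FA
  have h := adr p hp y x (aa p x y 1) (r00 p hp x y hx)
  exact h

include hp in
/-- The exchange relation for `b` in terms of the brackets `C_{0,n}`. -/
theorem FB_one_zero (x y : A) (hy : Serre p y x) : FB p x y 1 0 := by
  have h := FA_one_zero p hp (op y) (op x) (op_Serre p x y hy)
  unfold FA at h
  rw [op_DD_succ, op_aa, op_aa, op_DD_succ] at h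
  have hc : CC p x y 0 1 = DD p x y 2 := CC_eq p x y 1 (PP_one p x y) 1 0 (by omega)
  have hc0 : CC p x y 0 0 = DD p x y 1 := rfl
  rw [hc, hc0] at h
  simp only [← op_mul, ← op_sub, ← op_smul] at h
  have h' := op_injective h
  unfold FB
  linear_combination (norm := skip) - h'
  match_scalars <;> ring

include hp hroot in
theorem PP_two (x y : A) (hx : Serre p x y) (hy : Serre p y x) : PP p x y 2 := by
  have hc01 : CC p x y 0 1 = DD p x y 2 := CC_eq p x y 1 (PP_one p x y) 1 0 (by omega)
  have hc10 : CC p x y 1 0 = DD p x y 2 := rfl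
  have hc00 : CC p x y 0 0 = DD p x y 1 := rfl
  have h := recur p hp (DD p x y 2) (DD p x y 1) (DD p x y 0) (aa p x y 0) (aa p x y 1)
    (bb p x y 0) (bb p x y 1) (FA_one_zero p hp x y hx) (FB_one_zero p hp x y hy)
    (FA_zero p hp hroot x y 0) (FB_zero p hp hroot x y 0)
  have h0 : ∀ u : A, DD p x y 0 * u - u * DD p x y 0 = 0 := by
    intro u; simp only [DD]; rw [Algebra.commutes, sub_self]
  change DD p x y 2 * CC p x y 0 0 - CC p x y 0 0 * DD p x y 2
      = p⁻¹ • (DD p x y 1 * CC p x y 1 0) + p • (DD p x y 1 * CC p x y 0 1)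
        - p • (CC p x y 1 0 * DD p x y 1) - p⁻¹ • (CC p x y 0 1 * DD p x y 1)
        - (DD p x y 0 * CC p x y 1 1 - CC p x y 1 1 * DD p x y 0) at h
  rw [hc01, hc10, hc00, h0, sub_zero] at h
  have h5 : (p + p⁻¹ + 1) • (DD p x y 1 * DD p x y 2 - DD p x y 2 * DD p x y 1) = 0 := by
    linear_combination (norm := skip) - h
    simp only [smul_sub]
    match_scalars <;> ring
  have h6 := (smul_eq_zero.mp h5).resolve_left (three_ne p hp hroot)
  intro k hk
  rcases Nat.lt_or_ge k 2 with hk2 | hk2
  · exact PP_one p x y k (by omega)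
  · have : k = 2 := by omega
    subst this
    exact sub_eq_zero.mp h6

theorem FA_succ (x y : A) (n m : ℕ) (h1 : D1 p x y * DD p x y (n+1) = DD p x y (n+1) * D1 p x y)
    (h2 : D1 p x y * DD p x y n = DD p x y n * D1 p x y) (h : FA p x y n m) :
    FA p x y n (m+1) := by
  unfold FA at h ⊢
  have h3 := Fshift p (D1 p x y) (DD p x y (n+1)) (DD p x y n) (aa p x y m) h1 h2 h
  exact h3

theorem FB_succ (x y : A) (n m : ℕ) (h1 : D1 p x y * DD p x y (n+1) = DD p x y (n+1) * D1 p x y)
    (h2 : D1 p x y * DD p x y n = DD p x y n * D1 p x y) (h : FB p x y n m) :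
    FB p x y n (m+1) := by
  unfold FB at h ⊢
  rw [bb_succ p x y (m+1)]
  rw [bb_succ p x y m] at h ⊢
  generalize bb p x y m = b at *
  generalize DD p x y (n+1) = X at *
  generalize DD p x y n = Y at *
  generalize D1 p x y = D at *
  linear_combination (norm := skip) h * D - D * h - b * h1 + h1 * b
    - p • (h2 * (b * D - D * b)) + p⁻¹ • ((b * D - D * b) * h2)
  simp only [two_mul, mul_sub, sub_mul, mul_add, add_mul, smul_sub, smul_add, mul_smul_comm,
    smul_mul_assoc, smul_smul, mul_assoc, mul_zero, zero_mul, smul_zero]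
  match_scalars <;> ring

include hp hroot in
theorem FA_one (x y : A) (hx : Serre p x y) (hy : Serre p y x) (m : ℕ) : FA p x y 1 m := by
  have hP := PP_two p hp hroot x y hx hy
  induction m with
  | zero => exact FA_one_zero p hp x y hx
  | succ m ih => exact FA_succ p x y 1 m (hP 2 (by omega)) (hP 1 (by omega)) ih

include hp hroot in
theorem rkk (x y : A) (hx : Serre p x y) (hy : Serre p y x) (k : ℕ) :
    aa p x y k * aa p x y (k+1) - p • (aa p x y (k+1) * aa p x y k) = 0 := by
  induction k with
  | zero => exact r00 p hp x y hx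
  | succ k ih =>
    have h := rstep p hp (D1 p x y) (DD p x y 2) (aa p x y k) (aa p x y (k+1)) (aa p x y (k+2))
      rfl rfl (FA_one p hp hroot x y hx hy k) (FA_one p hp hroot x y hx hy (k+1)) ih
    exact (smul_eq_zero.mp h).resolve_left (ppr_ne p hp hroot)

theorem nablaR (x y : A) (k l : ℕ) (h : RA p x y k l) (h' : RA p x y k (l+1)) :
    RA p x y (k+1) l := by
  unfold RA at *
  rw [aa_succ p x y (l+1)] at h'
  rw [aa_succ p x y (k+1)]
  rw [aa_succ p x y k, aa_succ p x y l] at *
  generalize aa p x y k = u at *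
  generalize aa p x y l = v at *
  generalize D1 p x y = D at *
  linear_combination (norm := skip) D * h - h * D - h'
  simp only [two_mul, mul_sub, sub_mul, mul_add, add_mul, smul_sub, smul_add, mul_smul_comm,
    smul_mul_assoc, smul_smul, mul_assoc, mul_zero, zero_mul, smul_zero]
  match_scalars <;> ring

include hp hroot in
theorem RA_diag (x y : A) (hx : Serre p x y) (hy : Serre p y x) (k : ℕ) : RA p x y k k := by
  have h := rkk p hp hroot x y hx hy k
  unfold RA
  linear_combination (norm := skip) h + h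
  match_scalars <;> ring

include hp hroot in
theorem RA_one (x y : A) (hx : Serre p x y) (hy : Serre p y x) (k : ℕ) : RA p x y (k+1) k := by
  have h := rkk p hp hroot x y hx hy k
  unfold RA
  rw [aa_succ p x y (k+1)]
  rw [aa_succ p x y k] at *
  generalize aa p x y k = u at *
  generalize D1 p x y = D at *
  linear_combination (norm := skip) D * h - h * D
  simp only [two_mul, mul_sub, sub_mul, mul_add, add_mul, smul_sub, smul_add, mul_smul_comm,
    smul_mul_assoc, smul_smul, mul_assoc, mul_zero, zero_mul, smul_zero]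
  match_scalars <;> ring

include hp hroot in
theorem RA_aux (x y : A) (hx : Serre p x y) (hy : Serre p y x) (d : ℕ) :
    (∀ l, RA p x y (l+d) l) ∧ (∀ l, RA p x y (l+d+1) l) := by
  induction d with
  | zero => exact ⟨fun l => RA_diag p hp hroot x y hx hy l, fun l => RA_one p hp hroot x y hx hy l⟩
  | succ d ih =>
    refine ⟨fun l => ih.2 l, fun l => ?_⟩
    have h1 := ih.2 l
    have h2 := ih.1 (l+1)
    have e : l + 1 + d = l + d + 1 := by omega
    rw [e] at h2
    exact nablaR p x y (l+d+1) l h1 h2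

include hp hroot in
theorem RA_zero (x y : A) (hx : Serre p x y) (hy : Serre p y x) (k : ℕ) : RA p x y k 0 := by
  have h := (RA_aux p hp hroot x y hx hy k).1 0
  rwa [Nat.zero_add] at h

include hp hroot in
theorem FA_all_zero (x y : A) (hx : Serre p x y) (hy : Serre p y x) (n : ℕ) :
    FA p x y n 0 := by
  rcases n with _ | k
  · exact FA_zero p hp hroot x y 0
  · have h := adR p hp y (aa p x y 0) (aa p x y 1) (aa p x y k) (aa p x y (k+1))
      (RA_zero p hp hroot x y hx hy k)
    have h1 := FA_one p hp hroot x y hx hy k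
    unfold FA at h1 ⊢
    change (DD p x y (k+2) * aa p x y 0 - aa p x y 0 * DD p x y (k+2)
      - p⁻¹ • (DD p x y (k+1) * aa p x y 1) + p • (aa p x y 1 * DD p x y (k+1)))
      + (DD p x y 2 * aa p x y k - aa p x y k * DD p x y 2
      - p⁻¹ • (DD p x y 1 * aa p x y (k+1)) + p • (aa p x y (k+1) * DD p x y 1)) = 0 at h
    linear_combination (norm := skip) h - h1
    match_scalars <;> ring

include hp hroot in
theorem FB_all_zero (x y : A) (hx : Serre p x y) (hy : Serre p y x) (N : ℕ) (hP : PP p x y N)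
    (n : ℕ) (hn : n ≤ N) : FB p x y n 0 := by
  rcases n with _ | k
  · exact FB_zero p hp hroot x y 0
  · have h := FA_all_zero p hp hroot (op y) (op x) (op_Serre p x y hy) (op_Serre p y x hx)
      (k+1)
    unfold FA at h
    rw [op_DD_succ, op_aa, op_aa, op_DD_succ] at h
    have hc : CC p x y 0 (k+1) = DD p x y (k+2) := by
      have := CC_eq p x y N hP (k+1) 0 (by omega)
      rw [this]; congr 1; omega
    have hc0 : CC p x y 0 k = DD p x y (k+1) := by
      have := CC_eq p x y N hP k 0 (by omega)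
      rw [this]; congr 1; omega
    rw [hc, hc0] at h
    simp only [← op_mul, ← op_sub, ← op_smul] at h
    have h' := op_injective h
    unfold FB
    linear_combination (norm := skip) - h'
    match_scalars <;> ring

include hp hroot in
theorem FA_all (x y : A) (hx : Serre p x y) (hy : Serre p y x) (N : ℕ) (hP : PP p x y N)
    (n : ℕ) (hn : n + 1 ≤ N) (m : ℕ) : FA p x y n m := by
  induction m with
  | zero => exact FA_all_zero p hp hroot x y hx hy n
  | succ m ih => exact FA_succ p x y n m (hP (n+1) (by omega)) (hP n (by omega)) ih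

include hp hroot in
theorem FB_all (x y : A) (hx : Serre p x y) (hy : Serre p y x) (N : ℕ) (hP : PP p x y N)
    (n : ℕ) (hn : n + 1 ≤ N) (m : ℕ) : FB p x y n m := by
  induction m with
  | zero => exact FB_all_zero p hp hroot x y hx hy N hP n (by omega)
  | succ m ih => exact FB_succ p x y n m (hP (n+1) (by omega)) (hP n (by omega)) ih

theorem DD_zero_comm (x y u : A) : DD p x y 0 * u - u * DD p x y 0 = 0 := by
  simp only [DD]; rw [Algebra.commutes, sub_self]

include hp hroot in
theorem recC (x y : A) (hx : Serre p x y) (hy : Serre p y x) (N : ℕ) (hP : PP p x y N)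
    (j l : ℕ) (hj : j + l + 1 = N) :
    DD p x y (j+2) * DD p x y (l+1) - DD p x y (l+1) * DD p x y (j+2)
      = (p + p⁻¹) • (DD p x y (j+1) * DD p x y (l+2) - DD p x y (l+2) * DD p x y (j+1))
        - (DD p x y j * DD p x y (l+3) - DD p x y (l+3) * DD p x y j) := by
  have hXa : FA p x y (j+1) l := by
    rcases l with _ | l
    · exact FA_all_zero p hp hroot x y hx hy (j+1)
    · exact FA_all p hp hroot x y hx hy N hP (j+1) (by omega) (l+1)
  have hXb : FB p x y (j+1) 0 := FB_all_zero p hp hroot x y hx hy N hP (j+1) (by omega)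
  have hYa : FA p x y j l := FA_all p hp hroot x y hx hy N hP j (by omega) l
  have hYb : FB p x y j 0 := FB_all_zero p hp hroot x y hx hy N hP j (by omega)
  have h := recur p hp (DD p x y (j+2)) (DD p x y (j+1)) (DD p x y j) (aa p x y l)
    (aa p x y (l+1)) (bb p x y 0) (bb p x y 1) hXa hXb hYa hYb
  change DD p x y (j+2) * CC p x y l 0 - CC p x y l 0 * DD p x y (j+2)
      = p⁻¹ • (DD p x y (j+1) * CC p x y (l+1) 0) + p • (DD p x y (j+1) * CC p x y l 1)
        - p • (CC p x y (l+1) 0 * DD p x y (j+1)) - p⁻¹ • (CC p x y l 1 * DD p x y (j+1))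
        - (DD p x y j * CC p x y (l+1) 1 - CC p x y (l+1) 1 * DD p x y j) at h
  have h1 : CC p x y l 0 = DD p x y (l+1) := rfl
  have h2 : CC p x y (l+1) 0 = DD p x y (l+2) := rfl
  have h3 : CC p x y l 1 = DD p x y (l+2) := CC_eq p x y N hP 1 l (by omega)
  rw [h1, h2, h3] at h
  have h4 : DD p x y j * CC p x y (l+1) 1 - CC p x y (l+1) 1 * DD p x y j
      = DD p x y j * DD p x y (l+3) - DD p x y (l+3) * DD p x y j := by
    rcases j with _ | j
    · rw [DD_zero_comm, DD_zero_comm]
    · have h5 : CC p x y (l+1) 1 = DD p x y (l+3) := by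
        rw [CC_eq p x y N hP 1 (l+1) (by omega)]
      rw [h5]
  rw [h4] at h
  linear_combination (norm := skip) h
  simp only [smul_sub, add_smul]
  match_scalars <;> ring

/-- The quantum integers. -/
noncomputable def uu (p : K) (k : ℕ) : K := (p ^ k - p⁻¹ ^ k) / (p - p⁻¹)

theorem uu_rec (hp : p ≠ 0) (k : ℕ) : uu p (k+2) = (p + p⁻¹) * uu p (k+1) - uu p k := by
  unfold uu
  have : p ^ (k+2) - p⁻¹ ^ (k+2) = (p + p⁻¹) * (p ^ (k+1) - p⁻¹ ^ (k+1)) - (p ^ k - p⁻¹ ^ k) := by
    have h1 : p * p⁻¹ = 1 := mul_inv_cancel₀ hp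
    linear_combination (-p^k + p⁻¹ ^ k) * h1
  rw [this]; ring

include hp hroot in
theorem comm_uu (x y : A) (hx : Serre p x y) (hy : Serre p y x) (N : ℕ) (hP : PP p x y N)
    (k : ℕ) : ∀ l, k + l = N + 2 → 1 ≤ l →
    DD p x y k * DD p x y l - DD p x y l * DD p x y k
      = uu p k • (DD p x y 1 * DD p x y (N+1) - DD p x y (N+1) * DD p x y 1) := by
  induction k using Nat.strong_induction_on with
  | _ k ih =>
    intro l hl hl1
    rcases k with _ | _ | k
    · rw [DD_zero_comm]
      have : uu p 0 = 0 := by simp [uu]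
      rw [this, zero_smul]
    · have h1 : l = N + 1 := by omega
      subst h1
      have : uu p (0+1) = 1 := by
        unfold uu
        rw [zero_add, pow_one, pow_one, div_self (kappa_ne p hp hroot)]
      rw [this, one_smul]
    · obtain ⟨l, rfl⟩ : ∃ l', l = l' + 1 := ⟨l - 1, by omega⟩
      have h := recC p hp hroot x y hx hy N hP k l (by omega)
      rw [h, ih (k+1) (by omega) (l+2) (by omega) (by omega),
        ih k (by omega) (l+3) (by omega) (by omega), uu_rec p hp k]
      simp only [smul_smul, sub_smul]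

include hp hroot in
theorem uu_ne (N : ℕ) (hN : 1 ≤ N) : uu p (N+1) + 1 ≠ 0 := by
  intro h
  have hk := kappa_ne p hp hroot
  unfold uu at h
  have h1 : (p ^ (N+1) - p⁻¹ ^ (N+1)) + (p - p⁻¹) = 0 := by
    have h5 := congrArg (fun t => t * (p - p⁻¹)) h
    simp only [add_mul, div_mul_cancel₀ _ hk, one_mul, zero_mul] at h5
    exact h5
  have h2 : p ^ (N+1) * ((p ^ (N+1) - p⁻¹ ^ (N+1)) + (p - p⁻¹)) = (p^(N+2) - 1) * (p^N + 1) := by
    have h3 : p ^ (N+1) * p⁻¹ ^ (N+1) = 1 := by
      rw [← mul_pow, mul_inv_cancel₀ hp, one_pow]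
    have h4 : p ^ (N+1) * p⁻¹ = p ^ N := by
      rw [pow_succ, mul_assoc, mul_inv_cancel₀ hp, mul_one]
    linear_combination - h3 - h4
  rw [h1, mul_zero] at h2
  rcases mul_eq_zero.mp h2.symm with h3 | h3
  · exact hroot (N+2) (by omega) (sub_eq_zero.mp h3)
  · apply hroot (2*N) (by omega)
    have : p ^ N = -1 := by linear_combination h3
    rw [mul_comm, pow_mul, this]; norm_num

include hp hroot in
theorem PP_succ (x y : A) (hx : Serre p x y) (hy : Serre p y x) (N : ℕ) (hN : 1 ≤ N)
    (hP : PP p x y N) : PP p x y (N+1) := by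
  have h := comm_uu p hp hroot x y hx hy N hP (N+1) 1 (by omega) (by omega)
  have h2 : (uu p (N+1) + 1) • (DD p x y 1 * DD p x y (N+1) - DD p x y (N+1) * DD p x y 1) = 0 := by
    rw [add_smul, ← h, one_smul]; abel
  have h3 := (smul_eq_zero.mp h2).resolve_left (uu_ne p hp hroot N hN)
  intro k hk
  rcases Nat.lt_or_ge k (N+1) with hk2 | hk2
  · exact hP k (by omega)
  · have : k = N+1 := by omega
    subst this
    exact sub_eq_zero.mp h3

include hp hroot in
theorem PP_all (x y : A) (hx : Serre p x y) (hy : Serre p y x) (N : ℕ) : PP p x y N := by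
  induction N with
  | zero => exact fun k hk => PP_one p x y k (by omega)
  | succ N ih =>
    rcases N with _ | N
    · exact PP_one p x y
    · exact PP_succ p hp hroot x y hx hy (N+1) (by omega) ih

/-! ### The final relations -/

include hp hroot in
theorem DD_comm (x y : A) (hx : Serre p x y) (hy : Serre p y x) (k l : ℕ) :
    DD p x y k * DD p x y l = DD p x y l * DD p x y k := by
  rcases k with _ | k
  · exact sub_eq_zero.mp (DD_zero_comm p x y _)
  rcases l with _ | l
  · exact (sub_eq_zero.mp (DD_zero_comm p x y _)).symm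
  have h := comm_uu p hp hroot x y hx hy (k+l) (PP_all p hp hroot x y hx hy _) (k+1) (l+1)
    (by omega) (by omega)
  have h2 := PP_all p hp hroot x y hx hy (k+l+1) (k+l+1) le_rfl
  rw [← DD_one] at h2
  rw [h2, sub_self, smul_zero] at h
  exact sub_eq_zero.mp h

include hp hroot in
theorem CC_all (x y : A) (hx : Serre p x y) (hy : Serre p y x) (i j : ℕ) :
    CC p x y i j = DD p x y (i+j+1) :=
  CC_eq p x y (i+j) (PP_all p hp hroot x y hx hy _) j i le_rfl

include hp hroot in
theorem FA_final (x y : A) (hx : Serre p x y) (hy : Serre p y x) (n m : ℕ) : FA p x y n m :=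
  FA_all p hp hroot x y hx hy (n+1) (PP_all p hp hroot x y hx hy _) n le_rfl m

include hp hroot in
theorem FB_final (x y : A) (hx : Serre p x y) (hy : Serre p y x) (n m : ℕ) : FB p x y n m :=
  FB_all p hp hroot x y hx hy (n+1) (PP_all p hp hroot x y hx hy _) n le_rfl m

include hp hroot in
theorem RA_final (x y : A) (hx : Serre p x y) (hy : Serre p y x) (k l : ℕ) : RA p x y k l := by
  rcases Nat.le_total l k with h | h
  · obtain ⟨d, rfl⟩ := Nat.exists_eq_add_of_le h
    exact (RA_aux p hp hroot x y hx hy d).1 l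
  · obtain ⟨d, rfl⟩ := Nat.exists_eq_add_of_le h
    have h2 := (RA_aux p hp hroot x y hx hy d).1 k
    unfold RA at h2 ⊢
    linear_combination (norm := skip) h2
    match_scalars <;> ring

/-- Quadratic relation of the second real vectors. -/
def RB (p : K) (x y : A) (k l : ℕ) : Prop :=
  bb p x y (k+1) * bb p x y l - p • (bb p x y l * bb p x y (k+1))
    + bb p x y (l+1) * bb p x y k - p • (bb p x y k * bb p x y (l+1)) = 0

include hp hroot in
theorem RB_final (x y : A) (hx : Serre p x y) (hy : Serre p y x) (k l : ℕ) : RB p x y k l := by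
  have h := RA_final p hp hroot (op y) (op x) (op_Serre p x y hy) (op_Serre p y x hx) k l
  unfold RA at h
  simp only [op_aa, ← op_mul, ← op_sub, ← op_smul, ← op_add] at h
  have h' := op_injective (h.trans (op_zero).symm)
  unfold RB
  linear_combination (norm := skip) h'
  match_scalars <;> ring

include hp hroot in
theorem rkkB (x y : A) (hx : Serre p x y) (hy : Serre p y x) (k : ℕ) :
    bb p x y (k+1) * bb p x y k - p • (bb p x y k * bb p x y (k+1)) = 0 := by
  have h := rkk p hp hroot (op y) (op x) (op_Serre p x y hy) (op_Serre p y x hx) k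
  simp only [op_aa, ← op_mul, ← op_sub, ← op_smul, ← op_add] at h
  exact op_injective (h.trans (op_zero).symm)

end Pool.Agent.TH35.QRel
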