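import Mathlib
import Pool.Agent.TH35.QRelB

/-! The algebra with two generators and the q-Serre relations, and its structural maps. -/

namespace Pool.Agent.TH35.QAlg

set_option linter.unusedSimpArgs false
set_option linter.unusedVariables false

open MulOpposite Pool.Agent.TH35.QRel

universe u

variable {K : Type u} [Field K]

/-- First free generator. -/
def fx : FreeAlgebra K (Fin 2) := FreeAlgebra.ι K 0
/-- Second free generator. -/
def fy : FreeAlgebra K (Fin 2) := FreeAlgebra.ι K 1

/-- The two Serre relations with middle coefficient `c`. -/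
inductive Rel (c : K) : FreeAlgebra K (Fin 2) → FreeAlgebra K (Fin 2) → Prop
  | r1 : Rel c (fx * fx * fx * fy - c • (fx * fx * fy * fx) + c • (fx * fy * fx * fx)
      - fy * fx * fx * fx) 0
  | r2 : Rel c (fy * fy * fy * fx - c • (fy * fy * fx * fy) + c • (fy * fx * fy * fy)
      - fx * fy * fy * fy) 0

/-- The algebra presented by two generators and the Serre relations. -/
abbrev U (c : K) := RingQuot (Rel c)

/-- The version with `c = p + 1 + p⁻¹`. -/
abbrev V (p : K) := U (p + 1 + p⁻¹)

/-- First generator. -/
noncomputable def gx (p : K) : V p := RingQuot.mkAlgHom K (Rel (p + 1 + p⁻¹)) fx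
/-- Second generator. -/
noncomputable def gy (p : K) : V p := RingQuot.mkAlgHom K (Rel (p + 1 + p⁻¹)) fy

theorem serre_xy (p : K) : Serre p (gx p) (gy p) := by
  have h := RingQuot.mkAlgHom_rel K (Rel.r1 (c := p + 1 + p⁻¹))
  simp only [map_sub, map_add, map_mul, map_smul, map_zero] at h
  exact h

theorem serre_yx (p : K) : Serre p (gy p) (gx p) := by
  have h := RingQuot.mkAlgHom_rel K (Rel.r2 (c := p + 1 + p⁻¹))
  simp only [map_sub, map_add, map_mul, map_smul, map_zero] at h
  exact h

/-- Universal property. -/
noncomputable def lift (p : K) {B : Type*} [Ring B] [Algebra K B] (X Y : B)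
    (h1 : Serre p X Y) (h2 : Serre p Y X) : V p →ₐ[K] B :=
  RingQuot.liftAlgHom K ⟨FreeAlgebra.lift K ![X, Y], by
    intro a b hab
    cases hab with
    | r1 =>
      simp only [fx, fy, map_sub, map_add, map_mul, map_smul, map_zero,
        FreeAlgebra.lift_ι_apply, Matrix.cons_val_zero, Matrix.cons_val_one]
      exact h1
    | r2 =>
      simp only [fx, fy, map_sub, map_add, map_mul, map_smul, map_zero,
        FreeAlgebra.lift_ι_apply, Matrix.cons_val_zero, Matrix.cons_val_one]
      exact h2⟩

theorem lift_gx (p : K) {B : Type*} [Ring B] [Algebra K B] (X Y : B)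
    (h1 : Serre p X Y) (h2 : Serre p Y X) : lift p X Y h1 h2 (gx p) = X := by
  unfold lift gx
  rw [RingQuot.liftAlgHom_mkAlgHom_apply]
  simp [fx]

theorem lift_gy (p : K) {B : Type*} [Ring B] [Algebra K B] (X Y : B)
    (h1 : Serre p X Y) (h2 : Serre p Y X) : lift p X Y h1 h2 (gy p) = Y := by
  unfold lift gy
  rw [RingQuot.liftAlgHom_mkAlgHom_apply]
  simp [fy]

/-- Induction principle. -/
theorem ind (p : K) {P : V p → Prop} (hs : ∀ r : K, P (algebraMap K _ r)) (hx : P (gx p))
    (hy : P (gy p)) (hadd : ∀ u v, P u → P v → P (u + v)) (hmul : ∀ u v, P u → P v → P (u * v))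
    (u : V p) : P u := by
  obtain ⟨u, rfl⟩ := RingQuot.mkAlgHom_surjective K (Rel (p + 1 + p⁻¹)) u
  induction u using FreeAlgebra.induction with
  | grade0 r => rw [AlgHom.commutes]; exact hs r
  | grade1 i =>
    fin_cases i
    · exact hx
    · exact hy
  | mul a b ha hb => rw [map_mul]; exact hmul _ _ ha hb
  | add a b ha hb => rw [map_add]; exact hadd _ _ ha hb

theorem hom_eq (p : K) {B : Type*} [Ring B] [Algebra K B] (f g : V p →ₐ[K] B)
    (hx : f (gx p) = g (gx p)) (hy : f (gy p) = g (gy p)) (u : V p) : f u = g u := by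
  induction u using ind p with
  | hs r => rw [AlgHom.commutes, AlgHom.commutes]
  | hx => exact hx
  | hy => exact hy
  | hadd u v h1 h2 => rw [map_add, map_add, h1, h2]
  | hmul u v h1 h2 => rw [map_mul, map_mul, h1, h2]

theorem Serre_smul (p s t : K) {B : Type*} [Ring B] [Algebra K B] (X Y : B)
    (h1 : Serre p X Y) : Serre p (s • X) (t • Y) := by
  unfold Serre at *
  linear_combination (norm := skip) (s^3 * t) • h1
  simp only [smul_add, smul_sub, smul_mul_assoc, mul_smul_comm, smul_smul, mul_assoc, smul_zero]
  match_scalars <;> ring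

/-! ### The twisting automorphism -/

/-- The automorphism scaling the generators by `s`, `t`. -/
noncomputable def scal (p s t : K) : V p →ₐ[K] V p :=
  lift p (s • gx p) (t • gy p) (Serre_smul p s t _ _ (serre_xy p))
    (Serre_smul p t s _ _ (serre_yx p))

theorem scal_gx (p s t : K) : scal p s t (gx p) = s • gx p := lift_gx _ _ _ _ _
theorem scal_gy (p s t : K) : scal p s t (gy p) = t • gy p := lift_gy _ _ _ _ _

theorem scal_scal (p s t s' t' : K) (u : V p) :
    scal p s t (scal p s' t' u) = scal p (s * s') (t * t') u := by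
  have := hom_eq p ((scal p s t).comp (scal p s' t')) (scal p (s * s') (t * t'))
    (by simp only [AlgHom.comp_apply, scal_gx, map_smul, smul_smul]; rw [mul_comm])
    (by simp only [AlgHom.comp_apply, scal_gy, map_smul, smul_smul]; rw [mul_comm]) u
  exact this

theorem scal_one (p : K) (u : V p) : scal p 1 1 u = u := by
  have := hom_eq p (scal p 1 1) (AlgHom.id K _) (by simp [scal_gx]) (by simp [scal_gy]) u
  exact this

/-! ### The skew derivation -/

/-- The matrix of the first generator. -/
noncomputable def mX (p : K) : Matrix (Fin 2) (Fin 2) (V p) := !![p⁻¹ • gx p, 0; 0, gx p]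
/-- The matrix of the second generator. -/
noncomputable def mY (p : K) : Matrix (Fin 2) (Fin 2) (V p) := !![p • gy p, 1; 0, gy p]

theorem ser1 (p : K) (hp : p ≠ 0) : Serre p (mX p) (mY p) := by
  have h := serre_xy p
  unfold Serre at h ⊢
  unfold mX mY
  simp only [Matrix.mul_fin_two, Matrix.smul_of, Matrix.smul_cons, Matrix.smul_empty]
  ext i j
  fin_cases i <;> fin_cases j
  · simp only [Matrix.add_apply, Matrix.sub_apply, Matrix.of_apply, Matrix.cons_val', Matrix.cons_val_zero,
      Matrix.cons_val_one, Matrix.empty_val', Matrix.cons_val_fin_one, Fin.zero_eta, Fin.isValue,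
      Matrix.zero_apply, mul_zero, zero_mul, add_zero, zero_add, smul_zero, Fin.mk_one]
    linear_combination (norm := skip) (p⁻¹ ^ 3 * p) • h
    simp only [smul_add, smul_sub, smul_mul_assoc, mul_smul_comm, smul_smul, mul_assoc, smul_zero]
    match_scalars <;> ring
  · simp only [Matrix.add_apply, Matrix.sub_apply, Matrix.of_apply, Matrix.cons_val', Matrix.cons_val_zero,
      Matrix.cons_val_one, Matrix.empty_val', Matrix.cons_val_fin_one, Fin.zero_eta, Fin.isValue,
      Matrix.zero_apply, mul_zero, zero_mul, add_zero, zero_add, smul_zero, Fin.mk_one, one_mul, mul_one]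
    simp only [smul_add, smul_sub, smul_mul_assoc, mul_smul_comm, smul_smul, mul_assoc, smul_zero]
    match_scalars <;> field_simp <;> ring
  · simp only [Matrix.add_apply, Matrix.sub_apply, Matrix.of_apply, Matrix.cons_val', Matrix.cons_val_zero,
      Matrix.cons_val_one, Matrix.empty_val', Matrix.cons_val_fin_one, Fin.zero_eta, Fin.isValue,
      Matrix.zero_apply, mul_zero, zero_mul, add_zero, zero_add, smul_zero, Fin.mk_one, sub_self]
  · simp only [Matrix.add_apply, Matrix.sub_apply, Matrix.of_apply, Matrix.cons_val', Matrix.cons_val_zero,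
      Matrix.cons_val_one, Matrix.empty_val', Matrix.cons_val_fin_one, Fin.zero_eta, Fin.isValue,
      Matrix.zero_apply, mul_zero, zero_mul, add_zero, zero_add, smul_zero, Fin.mk_one, sub_self]
    exact h

theorem ser2 (p : K) (hp : p ≠ 0) : Serre p (mY p) (mX p) := by
  have h := serre_yx p
  unfold Serre at h ⊢
  unfold mX mY
  simp only [Matrix.mul_fin_two, Matrix.smul_of, Matrix.smul_cons, Matrix.smul_empty]
  ext i j
  fin_cases i <;> fin_cases j
  · simp only [Matrix.add_apply, Matrix.sub_apply, Matrix.of_apply, Matrix.cons_val', Matrix.cons_val_zero,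
      Matrix.cons_val_one, Matrix.empty_val', Matrix.cons_val_fin_one, Fin.zero_eta, Fin.isValue,
      Matrix.zero_apply, mul_zero, zero_mul, add_zero, zero_add, smul_zero, Fin.mk_one]
    linear_combination (norm := skip) (p ^ 3 * p⁻¹) • h
    simp only [smul_add, smul_sub, smul_mul_assoc, mul_smul_comm, smul_smul, mul_assoc, smul_zero]
    match_scalars <;> ring
  · simp only [Matrix.add_apply, Matrix.sub_apply, Matrix.of_apply, Matrix.cons_val', Matrix.cons_val_zero,
      Matrix.cons_val_one, Matrix.empty_val', Matrix.cons_val_fin_one, Fin.zero_eta, Fin.isValue,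
      Matrix.zero_apply, mul_zero, zero_mul, add_zero, zero_add, smul_zero, Fin.mk_one, one_mul, mul_one]
    simp only [smul_add, smul_sub, smul_mul_assoc, mul_smul_comm, smul_smul, mul_assoc, smul_zero,
      add_mul, mul_add]
    match_scalars <;> field_simp <;> ring
  · simp only [Matrix.add_apply, Matrix.sub_apply, Matrix.of_apply, Matrix.cons_val', Matrix.cons_val_zero,
      Matrix.cons_val_one, Matrix.empty_val', Matrix.cons_val_fin_one, Fin.zero_eta, Fin.isValue,
      Matrix.zero_apply, mul_zero, zero_mul, add_zero, zero_add, smul_zero, Fin.mk_one, sub_self]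
  · simp only [Matrix.add_apply, Matrix.sub_apply, Matrix.of_apply, Matrix.cons_val', Matrix.cons_val_zero,
      Matrix.cons_val_one, Matrix.empty_val', Matrix.cons_val_fin_one, Fin.zero_eta, Fin.isValue,
      Matrix.zero_apply, mul_zero, zero_mul, add_zero, zero_add, smul_zero, Fin.mk_one, sub_self]
    exact h

end Pool.Agent.TH35.QAlg
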