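import Mathlib
import Pool.Agent.TH35.QAlg

/-! Skew derivations of the algebra and their values on root vectors. -/

namespace Pool.Agent.TH35.QAlg

set_option linter.unusedSimpArgs false
set_option linter.unusedVariables false

open MulOpposite Pool.Agent.TH35.QRel

universe u

variable {K : Type u} [Field K]

/-- The matrix representation. -/
noncomputable def phi (p : K) (hp : p ≠ 0) : V p →ₐ[K] Matrix (Fin 2) (Fin 2) (V p) :=
  lift p (mX p) (mY p) (ser1 p hp) (ser2 p hp)

/-- The twist attached to the second generator. -/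
noncomputable def ky (p : K) : V p →ₐ[K] V p := scal p p⁻¹ p

/-- The twist attached to the first generator. -/
noncomputable def kx (p : K) : V p →ₐ[K] V p := scal p p p⁻¹

/-- The skew derivation in the second generator. -/
noncomputable def dy (p : K) (hp : p ≠ 0) : V p →ₗ[K] V p where
  toFun u := phi p hp u 0 1
  map_add' u v := by rw [map_add]; rfl
  map_smul' r u := by rw [map_smul]; rfl

theorem phi_entries (p : K) (hp : p ≠ 0) (u : V p) :
    phi p hp u 0 0 = ky p u ∧ phi p hp u 1 0 = 0 ∧ phi p hp u 1 1 = u := by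
  induction u using ind p with
  | hs r =>
    rw [AlgHom.commutes, AlgHom.commutes]
    simp [Matrix.algebraMap_matrix_apply]
  | hx => 
    unfold phi; rw [lift_gx]
    refine ⟨?_, rfl, rfl⟩
    unfold ky; rw [scal_gx]; rfl
  | hy =>
    unfold phi; rw [lift_gy]
    refine ⟨?_, rfl, rfl⟩
    unfold ky; rw [scal_gy]; rfl
  | hadd u v h1 h2 =>
    rw [map_add, map_add]
    simp only [Matrix.add_apply, h1.1, h1.2.1, h1.2.2, h2.1, h2.2.1, h2.2.2, add_zero, and_self]
  | hmul u v h1 h2 =>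
    rw [map_mul, map_mul]
    simp only [Matrix.mul_apply, Fin.sum_univ_two, h1.1, h1.2.1, h1.2.2, h2.1, h2.2.1, h2.2.2,
      add_zero, mul_zero, zero_mul, zero_add, and_self]

theorem dy_mul (p : K) (hp : p ≠ 0) (u v : V p) :
    dy p hp (u * v) = dy p hp u * v + ky p u * dy p hp v := by
  change phi p hp (u * v) 0 1 = phi p hp u 0 1 * v + ky p u * phi p hp v 0 1
  rw [map_mul, Matrix.mul_apply, Fin.sum_univ_two, (phi_entries p hp u).1,
    (phi_entries p hp v).2.2, add_comm]

theorem dy_gx (p : K) (hp : p ≠ 0) : dy p hp (gx p) = 0 := by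
  change phi p hp (gx p) 0 1 = 0
  unfold phi; rw [lift_gx]; rfl

theorem dy_gy (p : K) (hp : p ≠ 0) : dy p hp (gy p) = 1 := by
  change phi p hp (gy p) 0 1 = 1
  unfold phi; rw [lift_gy]; rfl

theorem dy_algebraMap (p : K) (hp : p ≠ 0) (r : K) : dy p hp (algebraMap K _ r) = 0 := by
  change phi p hp (algebraMap K _ r) 0 1 = 0
  rw [AlgHom.commutes, Matrix.algebraMap_matrix_apply]
  simp

theorem ky_gx (p : K) : ky p (gx p) = p⁻¹ • gx p := scal_gx _ _ _
theorem ky_gy (p : K) : ky p (gy p) = p • gy p := scal_gy _ _ _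
theorem kx_gx (p : K) : kx p (gx p) = p • gx p := scal_gx _ _ _
theorem kx_gy (p : K) : kx p (gy p) = p⁻¹ • gy p := scal_gy _ _ _

theorem ky_kx (p : K) (hp : p ≠ 0) (u : V p) : ky p (kx p u) = u := by
  unfold ky kx
  rw [scal_scal, inv_mul_cancel₀ hp, mul_inv_cancel₀ hp, scal_one]

theorem kx_ky (p : K) (hp : p ≠ 0) (u : V p) : kx p (ky p u) = u := by
  unfold ky kx
  rw [scal_scal, inv_mul_cancel₀ hp, mul_inv_cancel₀ hp, scal_one]

theorem dy_ky (p : K) (hp : p ≠ 0) (u : V p) : dy p hp (ky p u) = p • ky p (dy p hp u) := by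
  induction u using ind p with
  | hs r => rw [AlgHom.commutes, dy_algebraMap, map_zero, smul_zero]
  | hx => rw [ky_gx, map_smul, dy_gx, map_zero, smul_zero, smul_zero]
  | hy => rw [ky_gy, map_smul, dy_gy, map_one]
  | hadd u v h1 h2 => simp only [map_add, h1, h2, smul_add]
  | hmul u v h1 h2 =>
    simp only [map_mul, dy_mul, h1, h2, map_add, smul_add, smul_mul_assoc, mul_smul_comm]

theorem dy_kx (p : K) (hp : p ≠ 0) (u : V p) : dy p hp (kx p u) = p⁻¹ • kx p (dy p hp u) := by
  have h := dy_ky p hp (kx p u)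
  rw [ky_kx p hp] at h
  rw [h, map_smul, kx_ky p hp, smul_smul, inv_mul_cancel₀ hp, one_smul]

/-- The swap automorphism. -/
noncomputable def tau (p : K) : V p →ₐ[K] V p := lift p (gy p) (gx p) (serre_yx p) (serre_xy p)

theorem tau_gx (p : K) : tau p (gx p) = gy p := lift_gx _ _ _ _ _
theorem tau_gy (p : K) : tau p (gy p) = gx p := lift_gy _ _ _ _ _

theorem tau_tau (p : K) (u : V p) : tau p (tau p u) = u :=
  hom_eq p ((tau p).comp (tau p)) (AlgHom.id K _)
    (by rw [AlgHom.comp_apply, tau_gx, tau_gy]; rfl)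
    (by rw [AlgHom.comp_apply, tau_gy, tau_gx]; rfl) u

theorem tau_ky_tau (p : K) (u : V p) : tau p (ky p (tau p u)) = kx p u :=
  hom_eq p ((tau p).comp ((ky p).comp (tau p))) (kx p)
    (by rw [AlgHom.comp_apply, AlgHom.comp_apply, tau_gx, ky_gy, map_smul, tau_gy, kx_gx])
    (by rw [AlgHom.comp_apply, AlgHom.comp_apply, tau_gy, ky_gx, map_smul, tau_gx, kx_gy]) u

/-- The skew derivation in the first generator. -/
noncomputable def dx (p : K) (hp : p ≠ 0) : V p →ₗ[K] V p :=
  (tau p).toLinearMap ∘ₗ (dy p hp) ∘ₗ (tau p).toLinearMap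

theorem dx_apply (p : K) (hp : p ≠ 0) (u : V p) : dx p hp u = tau p (dy p hp (tau p u)) := rfl

theorem dx_mul (p : K) (hp : p ≠ 0) (u v : V p) :
    dx p hp (u * v) = dx p hp u * v + kx p u * dx p hp v := by
  rw [dx_apply, map_mul, dy_mul, map_add, map_mul, map_mul, tau_tau, tau_ky_tau]
  rfl

theorem dx_gx (p : K) (hp : p ≠ 0) : dx p hp (gx p) = 1 := by
  rw [dx_apply, tau_gx, dy_gy, map_one]

theorem dx_gy (p : K) (hp : p ≠ 0) : dx p hp (gy p) = 0 := by
  rw [dx_apply, tau_gy, dy_gx, map_zero]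

theorem dx_algebraMap (p : K) (hp : p ≠ 0) (r : K) : dx p hp (algebraMap K _ r) = 0 := by
  rw [dx_apply, AlgHom.commutes, dy_algebraMap, map_zero]

theorem dx_kx (p : K) (hp : p ≠ 0) (u : V p) : dx p hp (kx p u) = p • kx p (dx p hp u) := by
  rw [dx_apply, ← tau_ky_tau, tau_tau, dy_ky, map_smul, ← tau_ky_tau, dx_apply, tau_tau]

/-! ### Root vectors -/

/-- real root vectors `a_n` -/
noncomputable def av (p : K) (n : ℕ) : V p := aa p (gx p) (gy p) n
/-- real root vectors `b_n` -/
noncomputable def bv (p : K) (n : ℕ) : V p := bb p (gx p) (gy p) n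
/-- imaginary root vectors `D_n` -/
noncomputable def Dv (p : K) (n : ℕ) : V p := DD p (gx p) (gy p) n

variable (p : K) (hp : p ≠ 0) (hroot : ∀ n : ℕ, 0 < n → p ^ n ≠ 1)

theorem av_zero : av p 0 = gx p := rfl
theorem bv_zero : bv p 0 = gy p := rfl
theorem Dv_zero : Dv p 0 = algebraMap K _ (-(p - p⁻¹)⁻¹) := rfl
theorem Dv_one : Dv p 1 = gx p * gy p - p⁻¹ • (gy p * gx p) := rfl
theorem av_succ (n : ℕ) : av p (n+1) = Dv p 1 * av p n - av p n * Dv p 1 := rfl
theorem bv_succ (n : ℕ) : bv p (n+1) = bv p n * Dv p 1 - Dv p 1 * bv p n := rfl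
theorem Dv_succ (n : ℕ) : Dv p (n+1) = av p n * gy p - p⁻¹ • (gy p * av p n) := rfl

include hp in
theorem ky_Dv_one : ky p (Dv p 1) = Dv p 1 := by
  rw [Dv_one]
  simp only [map_sub, map_mul, map_smul, ky_gx, ky_gy, smul_mul_assoc, mul_smul_comm, smul_smul]
  match_scalars <;> field_simp

include hp in
theorem ky_av (n : ℕ) : ky p (av p n) = p⁻¹ • av p n := by
  induction n with
  | zero => exact ky_gx p
  | succ n ih =>
    rw [av_succ, map_sub, map_mul, map_mul, ih, ky_Dv_one p hp, smul_sub, smul_mul_assoc,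
      mul_smul_comm]

include hp in
theorem ky_bv (n : ℕ) : ky p (bv p n) = p • bv p n := by
  induction n with
  | zero => exact ky_gy p
  | succ n ih =>
    rw [bv_succ, map_sub, map_mul, map_mul, ih, ky_Dv_one p hp, smul_sub, smul_mul_assoc,
      mul_smul_comm]

include hp in
theorem ky_Dv (n : ℕ) : ky p (Dv p n) = Dv p n := by
  rcases n with _ | n
  · rw [Dv_zero, AlgHom.commutes]
  · rw [Dv_succ]
    simp only [map_sub, map_mul, map_smul, ky_av p hp, ky_gy, smul_mul_assoc, mul_smul_comm,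
      smul_smul]
    match_scalars <;> field_simp

include hp in
theorem kx_of_ky {u : V p} {c c' : K} (hc : c' * c = 1) (h : ky p u = c • u) :
    kx p u = c' • u := by
  have h2 := congrArg (kx p) h
  rw [kx_ky p hp, map_smul] at h2
  calc kx p u = (c' * c) • kx p u := by rw [hc, one_smul]
    _ = c' • (c • kx p u) := mul_smul _ _ _
    _ = c' • u := by rw [← h2]

include hp in
theorem kx_av (n : ℕ) : kx p (av p n) = p • av p n :=
  kx_of_ky p hp (mul_inv_cancel₀ hp) (ky_av p hp n)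

include hp in
theorem kx_bv (n : ℕ) : kx p (bv p n) = p⁻¹ • bv p n :=
  kx_of_ky p hp (inv_mul_cancel₀ hp) (ky_bv p hp n)

include hp in
theorem kx_Dv (n : ℕ) : kx p (Dv p n) = Dv p n := by
  have := kx_of_ky p hp (c := 1) (c' := 1) (by norm_num) (u := Dv p n)
    (by rw [one_smul]; exact ky_Dv p hp n)
  rwa [one_smul] at this

theorem dy_Dv_one : dy p hp (Dv p 1) = 0 := by
  rw [Dv_one, map_sub, map_smul, dy_mul, dy_mul, dy_gx, dy_gy, ky_gx, mul_zero, add_zero,
    zero_mul, zero_add, mul_one, one_mul, sub_self]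

theorem dy_av (n : ℕ) : dy p hp (av p n) = 0 := by
  induction n with
  | zero => exact dy_gx p hp
  | succ n ih =>
    rw [av_succ, map_sub, dy_mul, dy_mul, ih, dy_Dv_one]
    simp only [mul_zero, zero_mul, add_zero, sub_self]

theorem dy_Dv (n : ℕ) : dy p hp (Dv p n) = 0 := by
  rcases n with _ | n
  · rw [Dv_zero, dy_algebraMap]
  · rw [Dv_succ, map_sub, map_smul, dy_mul, dy_mul, dy_av, dy_gy, ky_av p hp, mul_zero, add_zero,
      zero_mul, zero_add, mul_one, one_mul, sub_self]

theorem dy_bv_succ (n : ℕ) : dy p hp (bv p (n+1)) = 0 := by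
  induction n with
  | zero =>
    rw [bv_succ, map_sub, dy_mul, dy_mul, dy_Dv_one, bv_zero, dy_gy, ky_Dv_one p hp]
    simp only [mul_zero, zero_mul, add_zero, zero_add, one_mul, mul_one, sub_self]
  | succ n ih =>
    rw [bv_succ p (n+1), map_sub, dy_mul, dy_mul, ih, dy_Dv_one]
    simp only [mul_zero, zero_mul, add_zero, sub_self]

theorem dx_Dv_one : dx p hp (Dv p 1) = (1 - p⁻¹ * p⁻¹) • gy p := by
  rw [Dv_one, map_sub, map_smul, dx_mul, dx_mul, dx_gx, dx_gy, kx_gx, kx_gy, mul_zero, add_zero,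
    zero_mul, zero_add, mul_one, one_mul]
  match_scalars <;> ring

include hroot in
theorem dx_av (n : ℕ) : dx p hp (av p n) = (-(p - p⁻¹)) • Dv p n := by
  have hk := kappa_ne p hp hroot
  induction n with
  | zero =>
    rw [av_zero, dx_gx, Dv_zero, Algebra.algebraMap_eq_smul_one, smul_smul, neg_mul_neg,
      mul_inv_cancel₀ hk, one_smul]
  | succ n ih =>
    rw [av_succ, map_sub, dx_mul, dx_mul, ih, dx_Dv_one, kx_av p hp, kx_Dv p hp]
    have hc : Dv p 1 * Dv p n = Dv p n * Dv p 1 :=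
      DD_comm p hp hroot _ _ (serre_xy p) (serre_yx p) 1 n
    rw [Dv_succ p n]
    linear_combination (norm := skip) (-(p - p⁻¹)) • hc
    simp only [smul_add, smul_sub, smul_mul_assoc, mul_smul_comm, smul_smul, mul_assoc, smul_zero]
    match_scalars <;> field_simp <;> ring

include hroot in
theorem dx_Dv_succ (n : ℕ) : dx p hp (Dv p (n+1))
    = (-(p - p⁻¹)) • (Dv p n * gy p - (p⁻¹ * p⁻¹) • (gy p * Dv p n)) := by
  rw [Dv_succ, map_sub, map_smul, dx_mul, dx_mul, dx_av p hp hroot, dx_gy, kx_gy]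
  simp only [smul_add, smul_sub, smul_mul_assoc, mul_smul_comm, smul_smul, mul_assoc, smul_zero,
    mul_zero, zero_mul, add_zero, zero_add]
  match_scalars <;> ring

/-- The composite of the two skew derivations. -/
noncomputable def EE : V p →ₗ[K] V p := (dy p hp) ∘ₗ (dx p hp)

theorem EE_apply (u : V p) : EE p hp u = dy p hp (dx p hp u) := rfl

theorem EE_mul (u v : V p) (hu : dy p hp u = 0) (hv : dy p hp v = 0) :
    EE p hp (u * v) = EE p hp u * v + u * EE p hp v := by
  rw [EE_apply, dx_mul, map_add, dy_mul, dy_mul, hv, dy_kx, hu, map_zero, smul_zero, mul_zero,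
    add_zero, zero_mul, zero_add, ky_kx p hp]
  rfl

include hroot in
theorem EE_av (n : ℕ) : EE p hp (av p n) = 0 := by
  rw [EE_apply, dx_av p hp hroot, map_smul, dy_Dv, smul_zero]

include hroot in
theorem EE_Dv_succ (n : ℕ) :
    EE p hp (Dv p (n+1)) = (-(p - p⁻¹) * (1 - p⁻¹ * p⁻¹)) • Dv p n := by
  rw [EE_apply, dx_Dv_succ p hp hroot, map_smul, map_sub, map_smul, dy_mul, dy_mul, dy_Dv, dy_gy,
    ky_Dv p hp]
  simp only [mul_zero, zero_mul, add_zero, zero_add, one_mul, mul_one]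
  match_scalars <;> ring

/-- The constant `rho`. -/
def rho (p : K) : K := (1 - p⁻¹ * p⁻¹) * (p⁻¹ - 1) * (1 + p)

include hp hroot in
theorem rho_ne : rho p ≠ 0 := by
  unfold rho
  have h1 : (1 - p⁻¹ * p⁻¹) ≠ 0 := by
    intro h
    have h2 : p ^ 2 * (1 - p⁻¹ * p⁻¹) = p ^ 2 - 1 := by field_simp
    rw [h, mul_zero] at h2
    exact hroot 2 (by norm_num) (sub_eq_zero.mp h2.symm)
  have h2 : (p⁻¹ - 1) ≠ 0 := by
    intro h
    have h2 : (-p) * (p⁻¹ - 1) = p ^ 1 - 1 := by field_simp; ring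
    rw [h, mul_zero] at h2
    exact hroot 1 (by norm_num) (sub_eq_zero.mp h2.symm)
  have h3 : (1 + p) ≠ 0 := by
    intro h
    have h2 : (p - 1) * (1 + p) = p ^ 2 - 1 := by ring
    rw [h, mul_zero] at h2
    exact hroot 2 (by norm_num) (sub_eq_zero.mp h2.symm)
  exact mul_ne_zero (mul_ne_zero h1 h2) h3

include hroot in
theorem EE_bv_succ (n : ℕ) : EE p hp (bv p (n+1)) = rho p • bv p n := by
  induction n with
  | zero =>
    rw [EE_apply, bv_succ, map_sub, dx_mul, dx_mul, dx_Dv_one, bv_zero, dx_gy, kx_gy,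
      kx_Dv p hp]
    simp only [mul_zero, zero_mul, add_zero, zero_add, map_sub, map_smul, dy_mul, mul_smul_comm,
      smul_mul_assoc, smul_smul, dy_gy, ky_gy, one_mul, mul_one]
    unfold rho
    simp only [smul_add, smul_smul]
    match_scalars <;> ring
  | succ n ih =>
    rw [bv_succ p (n+1), map_sub, EE_mul p hp _ _ (dy_bv_succ p hp n) (dy_Dv p hp 1),
      EE_mul p hp _ _ (dy_Dv p hp 1) (dy_bv_succ p hp n), ih]
    have h1 := EE_Dv_succ p hp hroot 0
    rw [Dv_zero, Algebra.algebraMap_eq_smul_one] at h1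
    rw [zero_add] at h1
    rw [h1, bv_succ p n]
    simp only [smul_add, smul_sub, smul_mul_assoc, mul_smul_comm, smul_smul, mul_assoc, smul_zero,
      one_mul, mul_one]
    match_scalars <;> ring

end Pool.Agent.TH35.QAlg
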