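import Mathlib
import Pool.Agent.TH35.QDer

/-! Peeling off the second real root vectors by means of skew derivations. -/

namespace Pool.Agent.TH35.QAlg

set_option linter.unusedSimpArgs false
set_option linter.unusedVariables false

open MulOpposite Pool.Agent.TH35.QRel

universe u

variable {K : Type u} [Field K]

/-- Generators of the `n`-th subalgebra. -/
def SG (p : K) (G : Set (V p)) (n : ℕ) : Set (V p) :=
  {u | ∃ m, n ≤ m ∧ u = bv p m} ∪ (Set.range (Dv p) ∪ G)

/-- The `n`-th subalgebra: only the `b_m` with `m ≥ n` are used. -/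
noncomputable def SS (p : K) (G : Set (V p)) (n : ℕ) : Subalgebra K (V p) :=
  Algebra.adjoin K (SG p G n)

variable (p : K) (hp : p ≠ 0) (hroot : ∀ n : ℕ, 0 < n → p ^ n ≠ 1)
variable (G : Set (V p)) (hG : G ⊆ Set.range (av p))

theorem bv_mem {n m : ℕ} (h : n ≤ m) : bv p m ∈ SS p G n :=
  Algebra.subset_adjoin (Or.inl ⟨m, h, rfl⟩)

theorem Dv_mem (n m : ℕ) : Dv p m ∈ SS p G n :=
  Algebra.subset_adjoin (Or.inr (Or.inl ⟨m, rfl⟩))

theorem G_mem {n : ℕ} {u : V p} (h : u ∈ G) : u ∈ SS p G n :=
  Algebra.subset_adjoin (Or.inr (Or.inr h))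

theorem SS_le (n : ℕ) : SS p G (n+1) ≤ SS p G n := by
  apply Algebra.adjoin_mono
  rintro u (⟨m, hm, rfl⟩ | h)
  · exact Or.inl ⟨m, by omega, rfl⟩
  · exact Or.inr h

include hG in
theorem dy_SS (n : ℕ) {u : V p} (hu : u ∈ SS p G (n+1)) : dy p hp u = 0 := by
  induction hu using Algebra.adjoin_induction with
  | mem x hx =>
    rcases hx with ⟨m, hm, rfl⟩ | ⟨m, rfl⟩ | h
    · obtain ⟨m, rfl⟩ : ∃ m', m = m' + 1 := ⟨m - 1, by omega⟩
      exact dy_bv_succ p hp m
    · exact dy_Dv p hp m
    · obtain ⟨m, rfl⟩ := hG h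
      exact dy_av p hp m
  | algebraMap r => exact dy_algebraMap p hp r
  | add x y _ _ h1 h2 => rw [map_add, h1, h2, add_zero]
  | mul x y _ _ h1 h2 => rw [dy_mul, h1, h2, zero_mul, mul_zero, add_zero]

include hroot hG in
theorem EE_SS (n : ℕ) {u : V p} (hu : u ∈ SS p G (n+1)) : EE p hp u ∈ SS p G n := by
  induction hu using Algebra.adjoin_induction with
  | mem x hx =>
    rcases hx with ⟨m, hm, rfl⟩ | ⟨m, rfl⟩ | h
    · obtain ⟨m, rfl⟩ : ∃ m', m = m' + 1 := ⟨m - 1, by omega⟩
      rw [EE_bv_succ p hp hroot]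
      exact Subalgebra.smul_mem _ (bv_mem p G (by omega)) _
    · rcases m with _ | m
      · rw [EE_apply, Dv_zero, dx_algebraMap, map_zero]; exact Subalgebra.zero_mem _
      · rw [EE_Dv_succ p hp hroot]
        exact Subalgebra.smul_mem _ (Dv_mem p G _ _) _
    · obtain ⟨m, rfl⟩ := hG h
      rw [EE_av p hp hroot]; exact Subalgebra.zero_mem _
  | algebraMap r => rw [EE_apply, dx_algebraMap, map_zero]; exact Subalgebra.zero_mem _
  | add x y _ _ h1 h2 => rw [map_add]; exact Subalgebra.add_mem _ h1 h2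
  | mul x y hx hy h1 h2 =>
    rw [EE_mul p hp x y (dy_SS p hp G hG n hx) (dy_SS p hp G hG n hy)]
    exact Subalgebra.add_mem _ (Subalgebra.mul_mem _ h1 (SS_le p G n hy))
      (Subalgebra.mul_mem _ (SS_le p G n hx) h2)

/-- The operators `eta_n`. -/
noncomputable def eta (p : K) (hp : p ≠ 0) : ℕ → (V p →ₗ[K] V p)
  | 0 => dy p hp
  | n+1 => (eta p hp n) ∘ₗ (EE p hp)

theorem eta_succ (n : ℕ) (u : V p) : eta p hp (n+1) u = eta p hp n (EE p hp u) := rfl

include hroot hG in
theorem eta_facts (n : ℕ) : (∀ u ∈ SS p G (n+1), eta p hp n u = 0) ∧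
    (∀ u ∈ SS p G n, ∀ v ∈ SS p G n,
      eta p hp n (u * v) = eta p hp n u * v + ky p u * eta p hp n v) := by
  induction n with
  | zero => exact ⟨fun u hu => dy_SS p hp G hG 0 hu, fun u _ v _ => dy_mul p hp u v⟩
  | succ n ih =>
    refine ⟨fun u hu => ?_, fun u hu v hv => ?_⟩
    · rw [eta_succ]
      exact ih.1 _ (EE_SS p hp hroot G hG (n+1) hu)
    · rw [eta_succ, EE_mul p hp u v (dy_SS p hp G hG n hu) (dy_SS p hp G hG n hv), map_add,
        ih.2 _ (EE_SS p hp hroot G hG n hu) _ (SS_le p G n hv),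
        ih.2 _ (SS_le p G n hu) _ (EE_SS p hp hroot G hG n hv), ih.1 v hv, ih.1 u hu,
        mul_zero, zero_mul, add_zero, zero_add]
      rfl

include hroot in
theorem eta_bv (n : ℕ) : eta p hp n (bv p n) = (rho p ^ n) • (1 : V p) := by
  induction n with
  | zero => rw [pow_zero, one_smul]; exact dy_gy p hp
  | succ n ih => rw [eta_succ, EE_bv_succ p hp hroot, map_smul, ih, smul_smul, pow_succ, mul_comm]

include hp hroot hG in
theorem comm_bv (n : ℕ) {u : V p} (hu : u ∈ SS p G (n+1)) :
    ∃ u' ∈ SS p G (n+1), ∃ u'' ∈ SS p G (n+1), u * bv p n = bv p n * u' + u'' := by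
  induction hu using Algebra.adjoin_induction with
  | mem x hx =>
    rcases hx with ⟨m, hm, rfl⟩ | ⟨m, rfl⟩ | h
    · rcases Nat.eq_or_lt_of_le hm with h | h
      · subst h
        refine ⟨p • bv p (n+1), Subalgebra.smul_mem _ (bv_mem p G le_rfl) _, 0,
          Subalgebra.zero_mem _, ?_⟩
        have h2 := rkkB p hp hroot _ _ (serre_xy p) (serre_yx p) n
        rw [add_zero, mul_smul_comm]
        exact sub_eq_zero.mp h2
      · obtain ⟨m, rfl⟩ : ∃ m', m = m' + 1 := ⟨m - 1, by omega⟩
        refine ⟨p • bv p (m+1), Subalgebra.smul_mem _ (bv_mem p G (by omega)) _,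
          p • (bv p m * bv p (n+1)) - bv p (n+1) * bv p m, ?_, ?_⟩
        · exact Subalgebra.sub_mem _ (Subalgebra.smul_mem _ (Subalgebra.mul_mem _
            (bv_mem p G (by omega)) (bv_mem p G le_rfl)) _)
            (Subalgebra.mul_mem _ (bv_mem p G le_rfl) (bv_mem p G (by omega)))
        · have h2 : bv p (m+1) * bv p n - p • (bv p n * bv p (m+1))
              + bv p (n+1) * bv p m - p • (bv p m * bv p (n+1)) = 0 :=
            RB_final p hp hroot _ _ (serre_xy p) (serre_yx p) m n
          rw [mul_smul_comm]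
          linear_combination (norm := skip) h2
          match_scalars <;> ring
    · rcases m with _ | m
      · refine ⟨Dv p 0, Dv_mem p G _ _, 0, Subalgebra.zero_mem _, ?_⟩
        rw [add_zero, Dv_zero, Algebra.commutes]
      · refine ⟨Dv p (m+1), Dv_mem p G _ _,
          p • (Dv p m * bv p (n+1)) - p⁻¹ • (bv p (n+1) * Dv p m), ?_, ?_⟩
        · exact Subalgebra.sub_mem _ (Subalgebra.smul_mem _ (Subalgebra.mul_mem _
            (Dv_mem p G _ _) (bv_mem p G le_rfl)) _)
            (Subalgebra.smul_mem _ (Subalgebra.mul_mem _ (bv_mem p G le_rfl) (Dv_mem p G _ _)) _)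
        · have h2 : Dv p (m+1) * bv p n - bv p n * Dv p (m+1)
              = p • (Dv p m * bv p (n+1)) - p⁻¹ • (bv p (n+1) * Dv p m) :=
            FB_final p hp hroot _ _ (serre_xy p) (serre_yx p) m n
          linear_combination (norm := skip) h2
          match_scalars <;> ring
    · have h' := h
      obtain ⟨m, rfl⟩ := hG h
      refine ⟨p⁻¹ • av p m, Subalgebra.smul_mem _ (G_mem p G h') _, Dv p (m+n+1),
        Dv_mem p G _ _, ?_⟩
      have h2 : av p m * bv p n - p⁻¹ • (bv p n * av p m) = Dv p (m+n+1) :=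
        CC_all p hp hroot _ _ (serre_xy p) (serre_yx p) m n
      rw [mul_smul_comm, ← h2]
      abel
  | algebraMap r =>
    exact ⟨algebraMap K _ r, Subalgebra.algebraMap_mem _ _, 0, Subalgebra.zero_mem _, by
      rw [add_zero, Algebra.commutes]⟩
  | add x y _ _ h1 h2 =>
    obtain ⟨x', hx', x'', hx'', ex⟩ := h1
    obtain ⟨y', hy', y'', hy'', ey⟩ := h2
    refine ⟨x' + y', Subalgebra.add_mem _ hx' hy', x'' + y'', Subalgebra.add_mem _ hx'' hy'', ?_⟩
    rw [add_mul, ex, ey, mul_add]; abel
  | mul x y hx _ h1 h2 =>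
    obtain ⟨x', hx', x'', hx'', ex⟩ := h1
    obtain ⟨y', hy', y'', hy'', ey⟩ := h2
    refine ⟨x' * y', Subalgebra.mul_mem _ hx' hy', x'' * y' + x * y'',
      Subalgebra.add_mem _ (Subalgebra.mul_mem _ hx'' hy') (Subalgebra.mul_mem _ hx hy''), ?_⟩
    calc x * y * bv p n = x * (y * bv p n) := mul_assoc _ _ _
      _ = x * bv p n * y' + x * y'' := by rw [ey, mul_add, ← mul_assoc]
      _ = _ := by rw [ex, add_mul, mul_assoc]; abel

/-- Sums `∑ b_n^k v_k`. -/
noncomputable def TT (p : K) (G : Set (V p)) (n : ℕ) : Submodule K (V p) :=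
  Submodule.span K {t | ∃ k : ℕ, ∃ v ∈ SS p G (n+1), t = bv p n ^ k * v}

theorem TT_mul_SS (n : ℕ) {t u : V p} (ht : t ∈ TT p G n) (hu : u ∈ SS p G (n+1)) :
    t * u ∈ TT p G n := by
  induction ht using Submodule.span_induction with
  | mem x hx =>
    obtain ⟨k, v, hv, rfl⟩ := hx
    rw [mul_assoc]
    exact Submodule.subset_span ⟨k, v * u, Subalgebra.mul_mem _ hv hu, rfl⟩
  | zero => rw [zero_mul]; exact Submodule.zero_mem _
  | add x y _ _ h1 h2 => rw [add_mul]; exact Submodule.add_mem _ h1 h2
  | smul a x _ h => rw [smul_mul_assoc]; exact Submodule.smul_mem _ _ h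

include hp hroot hG in
theorem TT_mul_bv (n : ℕ) {t : V p} (ht : t ∈ TT p G n) : t * bv p n ∈ TT p G n := by
  induction ht using Submodule.span_induction with
  | mem x hx =>
    obtain ⟨k, v, hv, rfl⟩ := hx
    obtain ⟨v', hv', v'', hv'', e⟩ := comm_bv p hp hroot G hG n hv
    rw [mul_assoc, e, mul_add, ← mul_assoc, ← pow_succ]
    exact Submodule.add_mem _ (Submodule.subset_span ⟨k+1, v', hv', rfl⟩)
      (Submodule.subset_span ⟨k, v'', hv'', rfl⟩)
  | zero => rw [zero_mul]; exact Submodule.zero_mem _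
  | add x y _ _ h1 h2 => rw [add_mul]; exact Submodule.add_mem _ h1 h2
  | smul a x _ h => rw [smul_mul_assoc]; exact Submodule.smul_mem _ _ h

include hp hroot hG in
theorem TT_mul (n : ℕ) {u : V p} (hu : u ∈ SS p G n) :
    ∀ t ∈ TT p G n, t * u ∈ TT p G n := by
  induction hu using Algebra.adjoin_induction with
  | mem x hx =>
    intro t ht
    rcases hx with ⟨m, hm, rfl⟩ | h
    · rcases Nat.eq_or_lt_of_le hm with h | h
      · subst h; exact TT_mul_bv p hp hroot G hG n ht
      · exact TT_mul_SS p G n ht (bv_mem p G (by omega))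
    · exact TT_mul_SS p G n ht (Algebra.subset_adjoin (Or.inr h))
  | algebraMap r => 
    intro t ht
    exact TT_mul_SS p G n ht (Subalgebra.algebraMap_mem _ _)
  | add x y _ _ h1 h2 =>
    intro t ht
    rw [mul_add]; exact Submodule.add_mem _ (h1 t ht) (h2 t ht)
  | mul x y _ _ h1 h2 =>
    intro t ht
    rw [← mul_assoc]; exact h2 _ (h1 t ht)

include hp hroot hG in
theorem SS_le_TT (n : ℕ) {u : V p} (hu : u ∈ SS p G n) : u ∈ TT p G n := by
  have h1 : (1 : V p) ∈ TT p G n :=
    Submodule.subset_span ⟨0, 1, Subalgebra.one_mem _, by rw [pow_zero, mul_one]⟩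
  have := TT_mul p hp hroot G hG n hu 1 h1
  rwa [one_mul] at this

theorem TT_rep (n : ℕ) {t : V p} (ht : t ∈ TT p G n) :
    ∃ (N : ℕ) (v : ℕ → V p), (∀ k, v k ∈ SS p G (n+1)) ∧ (∀ k, N ≤ k → v k = 0) ∧
      t = ∑ k ∈ Finset.range N, bv p n ^ k * v k := by
  induction ht using Submodule.span_induction with
  | mem x hx =>
    obtain ⟨k, v, hv, rfl⟩ := hx
    refine ⟨k+1, fun j => if j = k then v else 0, fun j => ?_, fun j hj => ?_, ?_⟩
    · dsimp only
      split_ifs
      · exact hv
      · exact Subalgebra.zero_mem _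
    · dsimp only
      rw [if_neg (by omega)]
    · rw [Finset.sum_range_succ, Finset.sum_eq_zero, zero_add]
      · dsimp only
        rw [if_pos rfl]
      · intro j hj
        dsimp only
        rw [if_neg (by have := Finset.mem_range.mp hj; omega), mul_zero]
  | zero => exact ⟨0, fun _ => 0, fun _ => Subalgebra.zero_mem _, fun _ _ => rfl, by simp⟩
  | add x y _ _ h1 h2 =>
    obtain ⟨N1, v1, m1, z1, e1⟩ := h1
    obtain ⟨N2, v2, m2, z2, e2⟩ := h2
    refine ⟨max N1 N2, fun k => v1 k + v2 k, fun k => Subalgebra.add_mem _ (m1 k) (m2 k),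
      fun k hk => ?_, ?_⟩
    · dsimp only
      rw [z1 k (le_trans (le_max_left _ _) hk), z2 k (le_trans (le_max_right _ _) hk), add_zero]
    · rw [e1, e2]
      simp only [mul_add]
      rw [Finset.sum_add_distrib]
      congr 1
      · apply Finset.sum_subset
        · intro k hk
          rw [Finset.mem_range] at hk ⊢
          exact lt_of_lt_of_le hk (le_max_left _ _)
        · intro k _ hk
          rw [Finset.mem_range, not_lt] at hk
          rw [z1 k hk, mul_zero]
      · apply Finset.sum_subset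
        · intro k hk
          rw [Finset.mem_range] at hk ⊢
          exact lt_of_lt_of_le hk (le_max_right _ _)
        · intro k _ hk
          rw [Finset.mem_range, not_lt] at hk
          rw [z2 k hk, mul_zero]
  | smul a x _ h =>
    obtain ⟨N, v, m, z, e⟩ := h
    refine ⟨N, fun k => a • v k, fun k => Subalgebra.smul_mem _ (m k) _, fun k hk => ?_, ?_⟩
    · dsimp only; rw [z k hk, smul_zero]
    · rw [e, Finset.smul_sum]
      apply Finset.sum_congr rfl
      intro k _
      rw [mul_smul_comm]

/-- Gaussian numbers. -/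
def gk (p : K) (k : ℕ) : K := ∑ i ∈ Finset.range k, p ^ i

theorem gk_succ (k : ℕ) : gk p (k+1) = p * gk p k + 1 := by
  unfold gk
  rw [Finset.sum_range_succ', Finset.mul_sum, pow_zero]
  congr 1
  apply Finset.sum_congr rfl
  intro i _
  ring

include hroot in
theorem gk_ne (k : ℕ) : gk p (k+1) ≠ 0 := by
  intro h
  have h2 : gk p (k+1) * (p - 1) = p ^ (k+1) - 1 := geom_sum_mul p (k+1)
  rw [h, zero_mul] at h2
  exact hroot (k+1) (by omega) (sub_eq_zero.mp h2.symm)

include hroot hG in
theorem eta_pow (n : ℕ) {v : V p} (hv : v ∈ SS p G (n+1)) (k : ℕ) :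
    eta p hp n (bv p n ^ (k+1) * v) = (rho p ^ n * gk p (k+1)) • (bv p n ^ k * v) := by
  have hb : bv p n ∈ SS p G n := bv_mem p G le_rfl
  have hv' := SS_le p G n hv
  have hf := eta_facts p hp hroot G hG n
  induction k with
  | zero =>
    rw [zero_add, pow_one, hf.2 _ hb _ hv', hf.1 v hv, mul_zero, add_zero, eta_bv p hp hroot n]
    unfold gk
    rw [Finset.range_one, Finset.sum_singleton, pow_zero, mul_one, pow_zero, one_mul,
      smul_mul_assoc, one_mul]
  | succ k ih =>
    have h1 : bv p n ^ (k+1) * v ∈ SS p G n :=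
      Subalgebra.mul_mem _ (Subalgebra.pow_mem _ hb _) hv'
    have h2 : bv p n ^ (k+1+1) * v = bv p n * (bv p n ^ (k+1) * v) := by
      rw [pow_succ' _ (k+1), mul_assoc]
    rw [h2, hf.2 _ hb _ h1, ih, eta_bv p hp hroot n, ky_bv p hp, gk_succ p (k+1)]
    have h3 : bv p n * (bv p n ^ k * v) = bv p n ^ (k+1) * v := by
      rw [pow_succ' _ k, mul_assoc]
    rw [smul_mul_smul_comm, smul_mul_assoc, one_mul, h3]
    match_scalars <;> ring

include hp hroot hG in
theorem direct (n : ℕ) (N : ℕ) : ∀ v : ℕ → V p, (∀ k, v k ∈ SS p G (n+1)) →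
    ∑ k ∈ Finset.range N, bv p n ^ k * v k = 0 → ∀ k < N, v k = 0 := by
  induction N with
  | zero => intro v _ _ k hk; omega
  | succ N ih =>
    intro v hv hs
    have hf := eta_facts p hp hroot G hG n
    have h1 := congrArg (eta p hp n) hs
    rw [Finset.sum_range_succ', map_add, map_zero, map_sum, pow_zero, one_mul, hf.1 _ (hv 0),
      add_zero] at h1
    have h2 : ∑ k ∈ Finset.range N, bv p n ^ k * ((rho p ^ n * gk p (k+1)) • v (k+1)) = 0 := by
      rw [← h1]
      apply Finset.sum_congr rfl
      intro k _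
      rw [eta_pow p hp hroot G hG n (hv (k+1)) k, mul_smul_comm]
    have h3 := ih (fun k => (rho p ^ n * gk p (k+1)) • v (k+1))
      (fun k => Subalgebra.smul_mem _ (hv _) _) h2
    have h4 : ∀ k < N, v (k+1) = 0 := by
      intro k hk
      have h5 := h3 k hk
      exact (smul_eq_zero.mp h5).resolve_left
        (mul_ne_zero (pow_ne_zero _ (rho_ne p hp hroot)) (gk_ne p hroot k))
    intro k hk
    rcases k with _ | k
    · rw [Finset.sum_range_succ', Finset.sum_eq_zero, zero_add, pow_zero, one_mul] at hs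
      · exact hs
      · intro j hj
        rw [h4 j (Finset.mem_range.mp hj), mul_zero]
    · exact h4 k (by omega)

include hroot hG in
theorem peel (n : ℕ) {w : V p} (hw : w ∈ SS p G n) (h0 : eta p hp n w = 0) :
    w ∈ SS p G (n+1) := by
  obtain ⟨N, v, hv, -, e⟩ := TT_rep p G n (SS_le_TT p hp hroot G hG n hw)
  have hf := eta_facts p hp hroot G hG n
  rcases N with _ | N
  · rw [Finset.range_zero, Finset.sum_empty] at e
    rw [e]; exact Subalgebra.zero_mem _
  · have h1 := congrArg (eta p hp n) e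
    rw [h0, Finset.sum_range_succ', map_add, map_sum, pow_zero, one_mul, hf.1 _ (hv 0),
      add_zero] at h1
    have h2 : ∑ k ∈ Finset.range N, bv p n ^ k * ((rho p ^ n * gk p (k+1)) • v (k+1)) = 0 := by
      rw [h1]
      apply Finset.sum_congr rfl
      intro k _
      rw [eta_pow p hp hroot G hG n (hv (k+1)) k, mul_smul_comm]
    have h3 := direct p hp hroot G hG n N (fun k => (rho p ^ n * gk p (k+1)) • v (k+1))
      (fun k => Subalgebra.smul_mem _ (hv _) _) h2
    have h4 : ∀ k < N, v (k+1) = 0 := by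
      intro k hk
      have h5 := h3 k hk
      exact (smul_eq_zero.mp h5).resolve_left
        (mul_ne_zero (pow_ne_zero _ (rho_ne p hp hroot)) (gk_ne p hroot k))
    rw [Finset.sum_range_succ', Finset.sum_eq_zero, zero_add, pow_zero, one_mul] at e
    · rw [e]; exact hv 0
    · intro j hj
      rw [h4 j (Finset.mem_range.mp hj), mul_zero]

theorem eta_eq_zero {w : V p} (hx : dx p hp w = 0) (hy : dy p hp w = 0) (n : ℕ) :
    eta p hp n w = 0 := by
  rcases n with _ | n
  · exact hy
  · rw [eta_succ, EE_apply, hx, map_zero, map_zero]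

include hroot hG in
theorem all_peel {w : V p} (hw : w ∈ SS p G 0) (hx : dx p hp w = 0) (hy : dy p hp w = 0)
    (n : ℕ) : w ∈ SS p G n := by
  induction n with
  | zero => exact hw
  | succ n ih => exact peel p hp hroot G hG n ih (eta_eq_zero p hp hx hy n)

include hp hroot in
/-- The `b_j` are left independent over the algebra generated by the `D_m`. -/
theorem b_indep (N : ℕ) (w : ℕ → V p) (hw : ∀ j, w j ∈ Algebra.adjoin K (Set.range (Dv p)))
    (hs : ∑ j ∈ Finset.range N, bv p j * w j = 0) : ∀ j < N, w j = 0 := by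
  intro n
  induction n using Nat.strong_induction_on with
  | _ n ih =>
    intro hn
    have hG : (∅ : Set (V p)) ⊆ Set.range (av p) := Set.empty_subset _
    have hf := eta_facts p hp hroot ∅ hG n
    have hmem : ∀ m j, w j ∈ SS p ∅ m := by
      intro m j
      exact Algebra.adjoin_mono (fun u hu => Or.inr (Or.inl hu)) (hw j)
    have h1 := congrArg (eta p hp n) hs
    rw [map_sum, map_zero, Finset.sum_eq_single n] at h1
    · rw [hf.2 _ (bv_mem p ∅ le_rfl) _ (hmem n n), hf.1 _ (hmem (n+1) n), mul_zero, add_zero,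
        eta_bv p hp hroot n, smul_mul_assoc, one_mul] at h1
      exact (smul_eq_zero.mp h1).resolve_left (pow_ne_zero _ (rho_ne p hp hroot))
    · intro j hj hne
      rcases Nat.lt_or_ge j n with hlt | hge
      · rw [ih j hlt (by omega), mul_zero, map_zero]
      · have hgt : n + 1 ≤ j := by omega
        rw [hf.1 _ (Subalgebra.mul_mem _ (bv_mem p ∅ hgt) (hmem (n+1) j))]
    · intro h
      exact absurd (Finset.mem_range.mpr hn) h

/-! ### The grading by the degree in the second generator -/

open Polynomial in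
/-- The grading homomorphism. -/
noncomputable def gam (p : K) : V p →ₐ[K] (V p)[X] :=
  lift p (monomial 0 (gx p)) (monomial 1 (gy p))
    (by
      have h := serre_xy p
      unfold Serre at h ⊢
      have h2 := congrArg (fun t => monomial 1 t) h
      simp only [map_sub, map_add, map_zero] at h2
      simp only [monomial_mul_monomial, smul_monomial, Nat.add_zero, Nat.zero_add]
      exact h2)
    (by
      have h := serre_yx p
      unfold Serre at h ⊢
      have h2 := congrArg (fun t => monomial 3 t) h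
      simp only [map_sub, map_add, map_zero] at h2
      simp only [monomial_mul_monomial, smul_monomial, Nat.add_zero, Nat.zero_add,
        Nat.reduceAdd]
      exact h2)

open Polynomial in
theorem gam_gx : gam p (gx p) = monomial 0 (gx p) := lift_gx _ _ _ _ _
open Polynomial in
theorem gam_gy : gam p (gy p) = monomial 1 (gy p) := lift_gy _ _ _ _ _

open Polynomial in
theorem gam_D1 : gam p (Dv p 1) = monomial 1 (Dv p 1) := by
  rw [Dv_one]
  simp only [map_sub, map_mul, map_smul, gam_gx, gam_gy, monomial_mul_monomial, smul_monomial]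

open Polynomial in
theorem gam_av (n : ℕ) : gam p (av p n) = monomial n (av p n) := by
  induction n with
  | zero => exact gam_gx p
  | succ n ih =>
    rw [av_succ]
    simp only [map_sub, map_mul, ih, gam_D1, monomial_mul_monomial]
    rw [Nat.add_comm 1 n]

open Polynomial in
theorem gam_bv (n : ℕ) : gam p (bv p n) = monomial (n+1) (bv p n) := by
  induction n with
  | zero => exact gam_gy p
  | succ n ih =>
    rw [bv_succ]
    simp only [map_sub, map_mul, ih, gam_D1, monomial_mul_monomial]
    rw [Nat.add_comm 1 (n+1)]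

open Polynomial in
theorem gam_Dv (n : ℕ) : gam p (Dv p n) = monomial n (Dv p n) := by
  rcases n with _ | n
  · rw [Dv_zero, AlgHom.commutes]; rfl
  · rw [Dv_succ]
    simp only [map_sub, map_mul, map_smul, gam_av, gam_gy, monomial_mul_monomial, smul_monomial]
    rw [Nat.add_comm 1 n]

open Polynomial in
/-- Polynomials whose low coefficients lie in `T`. -/
def WW (p : K) (T : Subalgebra K (V p)) (N : ℕ) : Subalgebra K (V p)[X] where
  carrier := {f | ∀ i ≤ N, f.coeff i ∈ T}
  mul_mem' := by
    intro f g hf hg i hi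
    rw [coeff_mul]
    apply Subalgebra.sum_mem
    intro x hx
    have := Finset.HasAntidiagonal.mem_antidiagonal.mp hx
    exact Subalgebra.mul_mem _ (hf _ (by omega)) (hg _ (by omega))
  add_mem' := by
    intro f g hf hg i hi
    rw [coeff_add]
    exact Subalgebra.add_mem _ (hf i hi) (hg i hi)
  algebraMap_mem' := by
    intro r i hi
    rw [Polynomial.algebraMap_apply, coeff_C]
    split_ifs
    · exact Subalgebra.algebraMap_mem _ _
    · exact Subalgebra.zero_mem _

open Polynomial in
theorem gam_WW (G : Set (V p)) (hG : G ⊆ Set.range (av p)) (N : ℕ) {u : V p}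
    (hu : u ∈ SS p G N) :
    gam p u ∈ WW p (Algebra.adjoin K (Set.range (Dv p) ∪ G)) N := by
  induction hu using Algebra.adjoin_induction with
  | mem x hx =>
    rcases hx with ⟨m, hm, rfl⟩ | ⟨m, rfl⟩ | h
    · rw [gam_bv]
      intro i hi
      rw [coeff_monomial, if_neg (by omega)]
      exact Subalgebra.zero_mem _
    · rw [gam_Dv]
      intro i hi
      rw [coeff_monomial]
      split_ifs
      · exact Algebra.subset_adjoin (Or.inl ⟨m, rfl⟩)
      · exact Subalgebra.zero_mem _
    · have h' := h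
      obtain ⟨m, rfl⟩ := hG h
      rw [gam_av]
      intro i hi
      rw [coeff_monomial]
      split_ifs
      · exact Algebra.subset_adjoin (Or.inr h')
      · exact Subalgebra.zero_mem _
  | algebraMap r => rw [AlgHom.commutes]; exact Subalgebra.algebraMap_mem _ _
  | add x y _ _ h1 h2 => rw [map_add]; exact Subalgebra.add_mem _ h1 h2
  | mul x y _ _ h1 h2 => rw [map_mul]; exact Subalgebra.mul_mem _ h1 h2

open Polynomial in
theorem gam_eval (u : V p) : (gam p u).eval 1 = u := by
  have key : ∀ f g : (V p)[X], (f * g).eval 1 = f.eval 1 * g.eval 1 := by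
    intro f g
    have h := (eval₂RingHom' (RingHom.id (V p)) (1 : V p) (fun a => Commute.one_right _)).map_mul f g
    exact h
  induction u using ind p with
  | hs r => rw [AlgHom.commutes, Polynomial.algebraMap_apply, eval_C]
  | hx => rw [gam_gx, eval_monomial, pow_zero, mul_one]
  | hy => rw [gam_gy, eval_monomial, one_pow, mul_one]
  | hadd u v h1 h2 => rw [map_add, eval_add, h1, h2]
  | hmul u v h1 h2 => rw [map_mul, key, h1, h2]

open Polynomial in
theorem inter_SS (G : Set (V p)) (hG : G ⊆ Set.range (av p)) {w : V p}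
    (hw : ∀ n, w ∈ SS p G n) : w ∈ Algebra.adjoin K (Set.range (Dv p) ∪ G) := by
  have h1 := gam_WW p G hG (gam p w).natDegree (hw _)
  rw [← gam_eval p w, eval_eq_sum_range]
  apply Subalgebra.sum_mem
  intro i hi
  rw [one_pow, mul_one]
  exact h1 i (by have := Finset.mem_range.mp hi; omega)

end Pool.Agent.TH35.QAlg
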