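import Mathlib
import Pool.Agent.TH35.QPeel

/-! Central elements are killed by both skew derivations. -/

namespace Pool.Agent.TH35.QAlg

set_option linter.unusedSimpArgs false
set_option linter.unusedVariables false

open MulOpposite Pool.Agent.TH35.QRel

universe u

section abstract

variable {K : Type*} [Field K] {A : Type*} [Ring A] [Algebra K A]
variable (c : K) (kap : A →ₐ[K] A) (d : Module.End K A)
variable (hd : ∀ u v, d (u * v) = d u * v + kap u * d v)
variable (hk : ∀ u, d (kap u) = c • kap (d u))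

include hk in
theorem pow_kap (n : ℕ) (u : A) : (d ^ n) (kap u) = c ^ n • kap ((d ^ n) u) := by
  induction n with
  | zero => simp
  | succ n ih =>
    rw [pow_succ', Module.End.mul_apply, ih, map_smul, hk, smul_smul, Module.End.mul_apply,
      pow_succ]

include hd hk in
theorem pow_mul_zero (n : ℕ) : ∀ k l u v, k + l = n → (d ^ k) u = 0 → (d ^ l) v = 0 →
    (d ^ n) (u * v) = 0 := by
  induction n with
  | zero =>
    intro k l u v h h1 h2
    have : k = 0 := by omega
    subst this
    rw [pow_zero, Module.End.one_apply] at h1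
    rw [h1, zero_mul, map_zero]
  | succ n ih =>
    intro k l u v h h1 h2
    rcases k with _ | k
    · rw [pow_zero, Module.End.one_apply] at h1
      rw [h1, zero_mul, map_zero]
    rcases l with _ | l
    · rw [pow_zero, Module.End.one_apply] at h2
      rw [h2, mul_zero, map_zero]
    rw [pow_succ, Module.End.mul_apply, hd, map_add]
    rw [ih k (l+1) (d u) v (by omega) (by rw [pow_succ, Module.End.mul_apply] at h1; exact h1) h2]
    rw [ih (k+1) l (kap u) (d v) (by omega)
      (by rw [pow_kap c kap d hk, h1, map_zero, smul_zero])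
      (by rw [pow_succ, Module.End.mul_apply] at h2; exact h2), add_zero]

/-- The constants in the commutation of `d^k w` with `y`. -/
noncomputable def ck (p lam : K) (k : ℕ) : K := (p ^ (k+1) - 1) / (p - 1) * (1 - lam * p⁻¹ ^ k)

theorem ck_succ {p : K} (hp : p ≠ 0) (hp1 : p - 1 ≠ 0) (lam : K) (k : ℕ) :
    ck p lam (k+1) = ck p lam k + p ^ (k+1) - lam * p⁻¹ ^ (k+1) := by
  unfold ck
  have h2 : p⁻¹ ^ k = p * p⁻¹ ^ (k+1) := by
    rw [pow_succ']; rw [← mul_assoc, mul_inv_cancel₀ hp, one_mul]
  have hZ : (p - 1)⁻¹ * (p - 1) = 1 := inv_mul_cancel₀ hp1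
  have h3 : p ^ (k+1+1) = p * p ^ (k+1) := by ring
  rw [h2, h3, div_eq_mul_inv, div_eq_mul_inv]
  generalize p⁻¹ ^ (k+1) = X at *
  generalize p ^ (k+1) = Y at *
  generalize (p - 1)⁻¹ = Z at *
  linear_combination (Y - lam * X) * hZ

include hd hk in
/-- Key lemma: a twisted eigenvector commuting with `y` has eigenvalue a nonnegative power. -/
theorem eig_lemma {p : K} (hp : p ≠ 0) (hroot : ∀ n : ℕ, 0 < n → p ^ n ≠ 1) (hc : c = p)
    (y : A) (hy1 : d y = 1) (hky : kap y = p • y) (w : A) (hw : w ≠ 0) (hcomm : w * y = y * w)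
    (lam : K) (hlam : kap w = lam • w) (hnil : ∃ k, (d ^ k) w = 0) :
    ∃ k : ℕ, lam = p ^ k ∧ (d ^ (k+1)) w = 0 := by
  subst hc
  have hp1 : c - 1 ≠ 0 := by
    intro h
    exact hroot 1 (by norm_num) (by rw [pow_one]; exact sub_eq_zero.mp h)
  have hkd : ∀ k, kap ((d ^ k) w) = (lam * c⁻¹ ^ k) • (d ^ k) w := by
    intro k
    have h := pow_kap c kap d hk k w
    rw [hlam, map_smul] at h
    have h2 : kap ((d ^ k) w) = c⁻¹ ^ k • (c ^ k • kap ((d ^ k) w)) := by
      rw [smul_smul, ← mul_pow, inv_mul_cancel₀ hp, one_pow, one_smul]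
    rw [h2, ← h, smul_smul, mul_comm]
  have key : ∀ k, (d ^ (k+1)) w * y
      = c ^ (k+1) • (y * (d ^ (k+1)) w) + ck c lam k • (d ^ k) w := by
    intro k
    induction k with
    | zero =>
      have h := congrArg d hcomm
      rw [hd, hd, hy1, hky, hlam] at h
      have e : ck c lam 0 = 1 - lam := by
        unfold ck
        rw [zero_add, pow_one, div_self hp1, pow_zero, mul_one, one_mul]
      rw [e, zero_add, pow_one, pow_one, pow_zero, Module.End.one_apply]
      simp only [smul_mul_assoc, one_mul, mul_one] at h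
      linear_combination (norm := skip) h
      match_scalars <;> ring
    | succ k ih =>
      have h := congrArg d ih
      rw [hd, hy1, map_add, map_smul, map_smul, hd, hy1, hky, hkd] at h
      have e1 : d ((d ^ (k+1)) w) = (d ^ (k+1+1)) w := by
        rw [pow_succ' d (k+1), Module.End.mul_apply]
      have e2 : d ((d ^ k) w) = (d ^ (k+1)) w := by
        rw [pow_succ' d k, Module.End.mul_apply]
      rw [e1, e2] at h
      rw [ck_succ hp hp1]
      simp only [smul_mul_assoc, one_mul, mul_one] at h
      linear_combination (norm := skip) h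
      match_scalars <;> ring
  classical
  have hk0 := Nat.find_spec hnil
  have hmin := fun m => Nat.find_min hnil (m := m)
  rcases hN : Nat.find hnil with _ | k
  · rw [hN, pow_zero, Module.End.one_apply] at hk0
    exact absurd hk0 hw
  · rw [hN] at hk0
    have h1 : (d ^ k) w ≠ 0 := hmin k (by omega)
    have h2 := key k
    rw [hk0, zero_mul, mul_zero, smul_zero, zero_add] at h2
    have h3 := (smul_eq_zero.mp h2.symm).resolve_right h1
    unfold ck at h3
    have h4 : (c ^ (k+1) - 1) / (c - 1) ≠ 0 :=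
      div_ne_zero (fun h => hroot (k+1) (by omega) (sub_eq_zero.mp h)) hp1
    have h5 := (mul_eq_zero.mp h3).resolve_left h4
    refine ⟨k, ?_, hk0⟩
    have h6 : lam * c⁻¹ ^ k = 1 := (sub_eq_zero.mp h5).symm
    have h7 : c⁻¹ ^ k * c ^ k = 1 := by rw [← mul_pow, inv_mul_cancel₀ hp, one_pow]
    calc lam = lam * (c⁻¹ ^ k * c ^ k) := by rw [h7, mul_one]
      _ = (lam * c⁻¹ ^ k) * c ^ k := by ring
      _ = c ^ k := by rw [h6, one_mul]

end abstract

variable {K : Type u} [Field K]
variable (p : K) (hp : p ≠ 0) (hroot : ∀ n : ℕ, 0 < n → p ^ n ≠ 1)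

/-! ### The integer grading -/

theorem single_comb {B : Type*} [Ring B] [Algebra K B] (m : ℤ) (a b c e : B) (s : K)
    (h : a - s • b + s • c - e = 0) :
    (AddMonoidAlgebra.single m a : AddMonoidAlgebra B ℤ) - s • AddMonoidAlgebra.single m b
      + s • AddMonoidAlgebra.single m c - AddMonoidAlgebra.single m e = 0 := by
  have h1 : a = s • b + -(s • c) + e := by
    rw [← sub_eq_zero, ← h]; abel
  rw [h1, AddMonoidAlgebra.smul_single, AddMonoidAlgebra.smul_single, AddMonoidAlgebra.single_add,
    AddMonoidAlgebra.single_add, AddMonoidAlgebra.single_neg]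
  abel

/-- The grading by (degree in the second generator) minus (degree in the first). -/
noncomputable def gz : V p →ₐ[K] AddMonoidAlgebra (V p) ℤ :=
  lift p (AddMonoidAlgebra.single (-1) (gx p)) (AddMonoidAlgebra.single 1 (gy p))
    (by
      have h := serre_xy p
      unfold Serre at h ⊢
      simp only [AddMonoidAlgebra.single_mul_single]
      exact single_comb _ _ _ _ _ _ h)
    (by
      have h := serre_yx p
      unfold Serre at h ⊢
      simp only [AddMonoidAlgebra.single_mul_single]
      exact single_comb _ _ _ _ _ _ h)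

theorem gz_gx : gz p (gx p) = AddMonoidAlgebra.single (-1) (gx p) := lift_gx _ _ _ _ _
theorem gz_gy : gz p (gy p) = AddMonoidAlgebra.single 1 (gy p) := lift_gy _ _ _ _ _

/-- The homogeneous components. -/
noncomputable def cmp (d : ℤ) (u : V p) : V p := (gz p u).coeff d

/-- Summation of coefficients. -/
noncomputable def sumc (B : Type*) [Ring B] : AddMonoidAlgebra B ℤ →+ B where
  toFun f := f.coeff.sum (fun _ r => r)
  map_zero' := by simp
  map_add' f g := by
    rw [AddMonoidAlgebra.coeff_add]
    exact Finsupp.sum_add_index' (fun _ => rfl) (fun _ _ _ => rfl)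

theorem sumc_single (B : Type*) [Ring B] (m : ℤ) (r : B) :
    sumc B (AddMonoidAlgebra.single m r) = r := by
  change (AddMonoidAlgebra.single m r).coeff.sum (fun _ r => r) = r
  rw [AddMonoidAlgebra.coeff_single]
  exact Finsupp.sum_single_index rfl

theorem sumc_mul (B : Type*) [Ring B] (f g : AddMonoidAlgebra B ℤ) :
    sumc B (f * g) = sumc B f * sumc B g := by
  induction f using AddMonoidAlgebra.induction_linear with
  | zero => rw [zero_mul, map_zero, zero_mul]
  | add f1 f2 h1 h2 => rw [add_mul, map_add, map_add, h1, h2, add_mul]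
  | single m r =>
    induction g using AddMonoidAlgebra.induction_linear with
    | zero => rw [mul_zero, map_zero, mul_zero]
    | add f1 f2 h1 h2 => rw [mul_add, map_add, map_add, h1, h2, mul_add]
    | single m' r' => rw [AddMonoidAlgebra.single_mul_single, sumc_single, sumc_single, sumc_single]

theorem algebraMap_single (r : K) :
    (algebraMap K (AddMonoidAlgebra (V p) ℤ) r) = AddMonoidAlgebra.single 0 (algebraMap K _ r) := rfl

theorem sumc_gz (u : V p) : sumc (V p) (gz p u) = u := by
  induction u using ind p with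
  | hs r => rw [AlgHom.commutes, algebraMap_single, sumc_single]
  | hx => rw [gz_gx, sumc_single]
  | hy => rw [gz_gy, sumc_single]
  | hadd u v h1 h2 => rw [map_add, map_add, h1, h2]
  | hmul u v h1 h2 => rw [map_mul, sumc_mul, h1, h2]

include hp in
theorem ky_cmp (u : V p) : ∀ d : ℤ, ky p (cmp p d u) = p ^ d • cmp p d u := by
  unfold cmp
  induction u using ind p with
  | hs r =>
    intro d
    rw [AlgHom.commutes, algebraMap_single, AddMonoidAlgebra.coeff_single, Finsupp.single_apply]
    split_ifs with h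
    · subst h
      rw [AlgHom.commutes, zpow_zero, one_smul]
    · rw [map_zero, smul_zero]
  | hx =>
    intro d
    rw [gz_gx, AddMonoidAlgebra.coeff_single, Finsupp.single_apply]
    split_ifs with h
    · subst h
      rw [ky_gx, zpow_neg_one]
    · rw [map_zero, smul_zero]
  | hy =>
    intro d
    rw [gz_gy, AddMonoidAlgebra.coeff_single, Finsupp.single_apply]
    split_ifs with h
    · subst h
      rw [ky_gy, zpow_one]
    · rw [map_zero, smul_zero]
  | hadd u v h1 h2 =>
    intro d
    rw [map_add, AddMonoidAlgebra.coeff_add, Finsupp.add_apply, map_add, h1, h2, smul_add]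
  | hmul u v h1 h2 =>
    intro d
    classical
    rw [map_mul, AddMonoidAlgebra.coeff_mul]
    simp only [Finsupp.sum, map_sum, Finset.smul_sum]
    apply Finset.sum_congr rfl
    intro i _
    apply Finset.sum_congr rfl
    intro j _
    split_ifs with h
    · subst h
      rw [map_mul, h1, h2, smul_mul_smul_comm, zpow_add₀ hp]
    · rw [map_zero, smul_zero]

theorem cmp_comm_gx {w : V p} (h : w * gx p = gx p * w) (d : ℤ) :
    cmp p d w * gx p = gx p * cmp p d w := by
  have h1 := congrArg (fun t => (gz p t).coeff (d - 1)) h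
  simp only [map_mul, gz_gx, AddMonoidAlgebra.coeff_mul_single_apply,
    AddMonoidAlgebra.coeff_single_mul_apply] at h1
  have e1 : d - 1 + - -1 = d := by ring
  have e2 : - -1 + (d - 1) = d := by ring
  rw [e1, e2] at h1
  exact h1

theorem cmp_comm_gy {w : V p} (h : w * gy p = gy p * w) (d : ℤ) :
    cmp p d w * gy p = gy p * cmp p d w := by
  have h1 := congrArg (fun t => (gz p t).coeff (d + 1)) h
  simp only [map_mul, gz_gy, AddMonoidAlgebra.coeff_mul_single_apply,
    AddMonoidAlgebra.coeff_single_mul_apply] at h1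
  have e1 : d + 1 + -1 = d := by ring
  have e2 : -1 + (d + 1) = d := by ring
  rw [e1, e2] at h1
  exact h1

theorem dy_nil (u : V p) : ∃ k, ((dy p hp : Module.End K (V p)) ^ k) u = 0 := by
  induction u using ind p with
  | hs r => exact ⟨1, by rw [pow_one]; exact dy_algebraMap p hp r⟩
  | hx => exact ⟨1, by rw [pow_one]; exact dy_gx p hp⟩
  | hy => exact ⟨2, by rw [pow_two, Module.End.mul_apply, dy_gy, ← map_one (algebraMap K (V p))]; exact dy_algebraMap p hp 1⟩
  | hadd u v h1 h2 =>
    obtain ⟨k, hk⟩ := h1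
    obtain ⟨l, hl⟩ := h2
    refine ⟨k + l, ?_⟩
    have h3 : ((dy p hp : Module.End K (V p)) ^ (k + l)) u = 0 := by
      rw [add_comm k l, pow_add, Module.End.mul_apply, hk, map_zero]
    have h4 : ((dy p hp : Module.End K (V p)) ^ (k + l)) v = 0 := by
      rw [pow_add, Module.End.mul_apply, hl, map_zero]
    rw [map_add, h3, h4, add_zero]
  | hmul u v h1 h2 =>
    obtain ⟨k, hk⟩ := h1
    obtain ⟨l, hl⟩ := h2
    exact ⟨k + l, pow_mul_zero p (ky p) (dy p hp) (dy_mul p hp) (dy_ky p hp) (k+l) k l u v rfl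
      hk hl⟩

theorem dx_nil (u : V p) : ∃ k, ((dx p hp : Module.End K (V p)) ^ k) u = 0 := by
  induction u using ind p with
  | hs r => exact ⟨1, by rw [pow_one]; exact dx_algebraMap p hp r⟩
  | hx => exact ⟨2, by rw [pow_two, Module.End.mul_apply, dx_gx, ← map_one (algebraMap K (V p))]; exact dx_algebraMap p hp 1⟩
  | hy => exact ⟨1, by rw [pow_one]; exact dx_gy p hp⟩
  | hadd u v h1 h2 =>
    obtain ⟨k, hk⟩ := h1
    obtain ⟨l, hl⟩ := h2
    refine ⟨k + l, ?_⟩
    have h3 : ((dx p hp : Module.End K (V p)) ^ (k + l)) u = 0 := by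
      rw [add_comm k l, pow_add, Module.End.mul_apply, hk, map_zero]
    have h4 : ((dx p hp : Module.End K (V p)) ^ (k + l)) v = 0 := by
      rw [pow_add, Module.End.mul_apply, hl, map_zero]
    rw [map_add, h3, h4, add_zero]
  | hmul u v h1 h2 =>
    obtain ⟨k, hk⟩ := h1
    obtain ⟨l, hl⟩ := h2
    exact ⟨k + l, pow_mul_zero p (kx p) (dx p hp) (dx_mul p hp) (dx_kx p hp) (k+l) k l u v rfl
      hk hl⟩

include hroot in
theorem cmp_killed {w : V p} (h1 : w * gx p = gx p * w) (h2 : w * gy p = gy p * w) (d : ℤ) :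
    dy p hp (cmp p d w) = 0 ∧ dx p hp (cmp p d w) = 0 := by
  by_cases hw : cmp p d w = 0
  · rw [hw, map_zero, map_zero]; exact ⟨rfl, rfl⟩
  have e1 := ky_cmp p hp w d
  have e2 : kx p (cmp p d w) = p ^ (-d) • cmp p d w :=
    kx_of_ky p hp (by rw [← zpow_add₀ hp]; simp) e1
  obtain ⟨k, hk, hk'⟩ := eig_lemma p (ky p) (dy p hp) (dy_mul p hp) (dy_ky p hp) hp hroot rfl
    (gy p) (dy_gy p hp) (ky_gy p) _ hw (cmp_comm_gy p h2 d) _ e1 (dy_nil p hp _)
  obtain ⟨l, hl, hl'⟩ := eig_lemma p (kx p) (dx p hp) (dx_mul p hp) (dx_kx p hp) hp hroot rfl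
    (gx p) (dx_gx p hp) (kx_gx p) _ hw (cmp_comm_gx p h1 d) _ e2 (dx_nil p hp _)
  have h3 : p ^ (k + l) = 1 := by
    rw [pow_add, ← hk, ← hl, ← zpow_add₀ hp]; simp
  have h4 : k + l = 0 := by
    by_contra h
    exact hroot (k+l) (Nat.pos_of_ne_zero h) h3
  have hk0 : k = 0 := by omega
  have hl0 : l = 0 := by omega
  subst hk0 hl0
  rw [zero_add, pow_one] at hk' hl'
  exact ⟨hk', hl'⟩

include hroot in
theorem central_killed {w : V p} (h1 : w * gx p = gx p * w) (h2 : w * gy p = gy p * w) :
    dy p hp w = 0 ∧ dx p hp w = 0 := by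
  have h : w = ∑ d ∈ (gz p w).coeff.support, cmp p d w := (sumc_gz p w).symm
  constructor
  · rw [h, map_sum]
    exact Finset.sum_eq_zero (fun d _ => (cmp_killed p hp hroot h1 h2 d).1)
  · rw [h, map_sum]
    exact Finset.sum_eq_zero (fun d _ => (cmp_killed p hp hroot h1 h2 d).2)

end Pool.Agent.TH35.QAlg
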