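import Mathlib

/-! A rigidity statement for polynomials in infinitely many variables under the transformations
`f(z) ↦ f(z) (1 - p⁻¹ t z) / (1 - p t z)`. -/

namespace Pool.Agent.TH35.StepC

set_option linter.unusedSimpArgs false
set_option linter.unusedVariables false

variable {K : Type*} [Field K]

/-- The sequence `S` with `S(z) (1 - β z) = f(z) (1 - α z)`. -/
def mulg (f : ℕ → K) (α β : K) : ℕ → K
  | 0 => f 0
  | n+1 => f (n+1) - α * f n + β * mulg f α β n

theorem mulg_mulg (f : ℕ → K) (α β γ : K) : mulg (mulg f α β) β γ = mulg f α γ := by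
  funext n
  induction n with
  | zero => rfl
  | succ n ih =>
    rw [mulg, mulg, mulg, ih]
    ring

theorem mulg_self (f : ℕ → K) (α : K) : mulg f α α = f := by
  funext n
  induction n with
  | zero => rfl
  | succ n ih =>
    rw [mulg, ih]
    ring

open MvPolynomial in
/-- Evaluation at a sequence (the first term is not used). -/
noncomputable def evs (f : ℕ → K) : MvPolynomial ℕ K →ₐ[K] K := aeval (fun n => f (n+1))

/-- Coefficients as polynomials in `Q`. -/
noncomputable def cpol (f : ℕ → K) (s : K) : ℕ → Polynomial K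
  | 0 => Polynomial.C (f 0)
  | n+1 => Polynomial.C (f (n+1) - s * f n) + Polynomial.X * Polynomial.C s * cpol f s n

theorem cpol_eval (f : ℕ → K) (s Q : K) (n : ℕ) :
    (cpol f s n).eval Q = mulg f s (Q * s) n := by
  induction n with
  | zero => rw [cpol, Polynomial.eval_C]; rfl
  | succ n ih =>
    rw [cpol, mulg, Polynomial.eval_add, Polynomial.eval_mul, Polynomial.eval_mul,
      Polynomial.eval_X, Polynomial.eval_C, Polynomial.eval_C, ih]

variable (p D0 : K)

/-- `J` is a set of polynomials stable under the transformations `tl`. -/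
def Good (J : Set (MvPolynomial ℕ K)) (f : ℕ → K) : Prop :=
  f 0 = D0 ∧ ∀ u ∈ J, evs f u = 0

variable (hp : p ≠ 0) (hroot : ∀ n : ℕ, 0 < n → p ^ n ≠ 1)
variable (J : Set (MvPolynomial ℕ K))
variable (hJ : ∀ f, Good D0 J f → ∀ t : K, Good D0 J (mulg f (p⁻¹ * t) (p * t)))

include hp hJ in
theorem good_pow (f : ℕ → K) (hf : Good D0 J f) (s : K) (m : ℕ) :
    Good D0 J (mulg f s (p ^ (2*m) * s)) := by
  induction m with
  | zero => rw [Nat.mul_zero, pow_zero, one_mul, mulg_self]; exact hf
  | succ m ih =>
    have h := hJ _ ih (p ^ (2*m+1) * s)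
    have e1 : p⁻¹ * (p ^ (2*m+1) * s) = p ^ (2*m) * s := by
      rw [pow_succ]; field_simp
    have e2 : p * (p ^ (2*m+1) * s) = p ^ (2*(m+1)) * s := by ring
    rw [e1, e2, mulg_mulg] at h
    exact h

include hp hroot hJ in
theorem good_lim (f : ℕ → K) (hf : Good D0 J f) (s : K) : Good D0 J (mulg f s 0) := by
  refine ⟨hf.1, fun u hu => ?_⟩
  let h : Polynomial K := MvPolynomial.aeval (fun n => cpol f s (n+1)) u
  have hev : ∀ Q : K, h.eval Q = evs (mulg f s (Q * s)) u := by
    intro Q
    have h1 := MvPolynomial.algHom_ext (R := K) (A := K) (σ := ℕ)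
      (f := (Polynomial.aeval Q : Polynomial K →ₐ[K] K).comp
        (MvPolynomial.aeval (fun n => cpol f s (n+1)))) (g := evs (mulg f s (Q * s)))
      (by
        intro n
        rw [AlgHom.comp_apply, MvPolynomial.aeval_X, evs, MvPolynomial.aeval_X,
          Polynomial.coe_aeval_eq_eval, cpol_eval])
    have h2 := DFunLike.congr_fun h1 u
    rw [AlgHom.comp_apply, Polynomial.coe_aeval_eq_eval] at h2
    exact h2
  have hz : ∀ m : ℕ, h.eval (p ^ (2*m)) = 0 := by
    intro m
    rw [hev]
    exact (good_pow p D0 hp J hJ f hf s m).2 u hu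
  have hinj : Function.Injective (fun m : ℕ => p ^ (2*m)) := by
    have aux : ∀ a b : ℕ, a < b → p ^ (2*a) ≠ p ^ (2*b) := by
      intro a b hab he
      apply hroot (2*b - 2*a) (by omega)
      have h3 : p ^ (2*b) = p ^ (2*a) * p ^ (2*b-2*a) := by rw [← pow_add]; congr 1; omega
      rw [h3] at he
      exact (mul_left_cancel₀ (pow_ne_zero _ hp) (by rw [mul_one]; exact he)).symm
    intro a b hab
    rcases lt_trichotomy a b with h4 | h4 | h4
    · exact absurd hab (aux a b h4)
    · exact h4
    · exact absurd hab.symm (aux b a h4)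
  have h0 : h = 0 := by
    apply Polynomial.eq_zero_of_infinite_isRoot
    apply Set.Infinite.mono (s := Set.range (fun m : ℕ => p ^ (2*m)))
    · rintro _ ⟨m, rfl⟩
      exact hz m
    · exact Set.infinite_range_of_injective hinj
  have h5 := hev 0
  rw [h0, Polynomial.eval_zero, zero_mul] at h5
  exact h5.symm

variable (hD0 : D0 ≠ 0) (hJ0 : ∀ u ∈ J, MvPolynomial.constantCoeff u = 0)

theorem coeff_aux (s : K) (Q : Polynomial K) (n : ℕ) :
    ((1 - Polynomial.C s * Polynomial.X) * Q).coeff (n+1) = Q.coeff (n+1) - s * Q.coeff n := by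
  rw [sub_mul, one_mul, Polynomial.coeff_sub, mul_assoc, Polynomial.coeff_C_mul,
    Polynomial.coeff_X_mul]

include hp hroot hJ hD0 hJ0 in
theorem good_poly [IsAlgClosed K] (N : ℕ) : ∀ P : Polynomial K, P.natDegree ≤ N →
    P.coeff 0 = D0 → Good D0 J (fun n => P.coeff n) := by
  induction N with
  | zero =>
    intro P hP h0
    refine ⟨h0, fun u hu => ?_⟩
    rw [← hJ0 u hu]
    have h1 := MvPolynomial.algHom_ext (R := K) (A := K) (σ := ℕ)
      (f := evs (fun n => P.coeff n)) (g := MvPolynomial.aeval (fun _ => (0:K)))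
      (by
        intro n
        rw [evs, MvPolynomial.aeval_X, MvPolynomial.aeval_X]
        exact Polynomial.coeff_eq_zero_of_natDegree_lt (by omega))
    rw [h1]
    have h2 := MvPolynomial.aeval_zero' (R := K) (S₁ := K) u
    rw [h2]; rfl
  | succ N ih =>
    intro P hP h0
    rcases Nat.lt_or_ge P.natDegree (N+1) with hlt | hge
    · exact ih P (by omega) h0
    have hdeg : P.degree ≠ 0 := by
      intro h
      have := Polynomial.natDegree_eq_of_degree_eq_some (n := 0) (by rw [h]; rfl)
      omega
    obtain ⟨r, hr⟩ := IsAlgClosed.exists_root P hdeg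
    obtain ⟨P1, hP1⟩ := Polynomial.dvd_iff_isRoot.mpr hr
    have hr0 : r ≠ 0 := by
      intro h
      rw [h, map_zero, sub_zero] at hP1
      rw [hP1, Polynomial.coeff_X_mul_zero] at h0
      exact hD0 h0.symm
    have hP10 : P1 ≠ 0 := by
      intro h
      rw [h, mul_zero] at hP1
      rw [hP1, Polynomial.coeff_zero] at h0
      exact hD0 h0.symm
    have hP2 : P = (1 - Polynomial.C r⁻¹ * Polynomial.X) * (Polynomial.C (-r) * P1) := by
      have h6 : (1 - Polynomial.C r⁻¹ * Polynomial.X) * Polynomial.C (-r)
          = Polynomial.X - Polynomial.C r := by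
        have h7 : Polynomial.C r⁻¹ * Polynomial.C r = 1 := by
          rw [← Polynomial.C_mul, inv_mul_cancel₀ hr0, Polynomial.C_1]
        rw [Polynomial.C_neg]
        linear_combination (Polynomial.X) * h7
      rw [← mul_assoc, h6]; exact hP1
    have hnd : P.natDegree = 1 + P1.natDegree := by
      rw [hP1, Polynomial.natDegree_mul (Polynomial.X_sub_C_ne_zero r) hP10,
        Polynomial.natDegree_X_sub_C]
    have hco0 : (Polynomial.C (-r) * P1).coeff 0 = D0 := by
      rw [← h0, hP1, Polynomial.mul_coeff_zero, Polynomial.mul_coeff_zero]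
      simp
    have h8 := ih (Polynomial.C (-r) * P1)
      (le_trans (Polynomial.natDegree_C_mul_le _ _) (by omega)) hco0
    have h9 := good_lim p D0 hp hroot J hJ _ h8 r⁻¹
    have h10 : mulg (fun n => (Polynomial.C (-r) * P1).coeff n) r⁻¹ 0 = fun n => P.coeff n := by
      funext n
      rcases n with _ | n
      · change (Polynomial.C (-r) * P1).coeff 0 = P.coeff 0
        rw [hco0, h0]
      · rw [mulg, zero_mul, add_zero]
        conv_rhs => rw [hP2]
        rw [coeff_aux]
    rw [h10] at h9
    exact h9

include hp hroot hJ hD0 hJ0 in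
theorem rigid [IsAlgClosed K] (u : MvPolynomial ℕ K) (hu : u ∈ J) : u = 0 := by
  classical
  have : Infinite K := IsAlgClosed.instInfinite
  apply MvPolynomial.funext
  intro x
  rw [map_zero]
  -- the polynomial with prescribed coefficients
  let M := u.vars.sup id + 1
  let P : Polynomial K := Polynomial.C D0 +
    ∑ i ∈ Finset.range M, Polynomial.C (x i) * Polynomial.X ^ (i+1)
  have hc0 : P.coeff 0 = D0 := by
    simp [P]
  have hc : ∀ n < M, P.coeff (n+1) = x n := by
    intro n hn
    simp only [P, Polynomial.coeff_add, Polynomial.finsetSum_coeff, Polynomial.coeff_C_mul,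
      Polynomial.coeff_X_pow, Polynomial.coeff_C]
    rw [if_neg (by omega), zero_add, Finset.sum_eq_single n]
    · rw [if_pos rfl, mul_one]
    · intro j _ hj
      rw [if_neg (by omega), mul_zero]
    · intro h
      exact absurd (Finset.mem_range.mpr hn) h
  have h1 := (good_poly p D0 hp hroot J hJ hD0 hJ0 P.natDegree P le_rfl hc0).2 u hu
  rw [← h1]
  rw [evs, MvPolynomial.aeval_def, MvPolynomial.eval₂_eq, MvPolynomial.eval_eq]
  apply Finset.sum_congr rfl
  intro d hd
  congr 1
  apply Finset.prod_congr rfl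
  intro i hi
  have hi2 : i < M := by
    have : i ∈ u.vars := by
      rw [MvPolynomial.mem_vars_iff_mem_support]
      exact ⟨d, hd, hi⟩
    have h3 : id i ≤ u.vars.sup id := Finset.le_sup this
    simp only [id] at h3
    omega
  rw [hc i hi2]

end Pool.Agent.TH35.StepC
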