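import Mathlib
import Pool.Agent.TH35.QCen
import Pool.Agent.TH35.QStepC

/-! The center is trivial. -/

namespace Pool.Agent.TH35.QAlg

set_option linter.unusedSimpArgs false
set_option linter.unusedVariables false

open MulOpposite Pool.Agent.TH35.QRel

universe u

variable {K : Type u} [Field K]
variable (p : K) (hp : p ≠ 0) (hroot : ∀ n : ℕ, 0 < n → p ^ n ≠ 1)

/-! ### The anti-automorphism -/

/-- The anti-automorphism exchanging the generators. -/
noncomputable def sig : V p →ₐ[K] (V p)ᵐᵒᵖ :=
  lift p (op (gy p)) (op (gx p)) (op_Serre p (gx p) (gy p) (serre_yx p))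
    (op_Serre p (gy p) (gx p) (serre_xy p))

/-- The underlying map of the anti-automorphism. -/
noncomputable def sg (u : V p) : V p := unop (sig p u)

theorem sg_gx : sg p (gx p) = gy p := by unfold sg sig; rw [lift_gx]; rfl
theorem sg_gy : sg p (gy p) = gx p := by unfold sg sig; rw [lift_gy]; rfl
theorem sg_add (u v : V p) : sg p (u + v) = sg p u + sg p v := by unfold sg; rw [map_add]; rfl
theorem sg_sub (u v : V p) : sg p (u - v) = sg p u - sg p v := by unfold sg; rw [map_sub]; rfl
theorem sg_mul (u v : V p) : sg p (u * v) = sg p v * sg p u := by unfold sg; rw [map_mul]; rfl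
theorem sg_smul (r : K) (u : V p) : sg p (r • u) = r • sg p u := by unfold sg; rw [map_smul]; rfl
theorem sg_zero : sg p 0 = 0 := by unfold sg; rw [map_zero]; rfl
theorem sg_alg (r : K) : sg p (algebraMap K _ r) = algebraMap K _ r := by
  unfold sg; rw [AlgHom.commutes]; rfl

theorem sg_sum {ι : Type*} (s : Finset ι) (f : ι → V p) :
    sg p (∑ i ∈ s, f i) = ∑ i ∈ s, sg p (f i) := by
  classical
  induction s using Finset.induction_on with
  | empty => rw [Finset.sum_empty, Finset.sum_empty, sg_zero]
  | insert a s ha ih => rw [Finset.sum_insert ha, Finset.sum_insert ha, sg_add, ih]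

theorem sg_sg (u : V p) : sg p (sg p u) = u := by
  induction u using ind p with
  | hs r => rw [sg_alg, sg_alg]
  | hx => rw [sg_gx, sg_gy]
  | hy => rw [sg_gy, sg_gx]
  | hadd u v h1 h2 => rw [sg_add, sg_add, h1, h2]
  | hmul u v h1 h2 => rw [sg_mul, sg_mul, h1, h2]

theorem sg_D1 : sg p (Dv p 1) = Dv p 1 := by
  rw [Dv_one, sg_sub, sg_smul, sg_mul, sg_mul, sg_gx, sg_gy]

theorem sg_av (n : ℕ) : sg p (av p n) = bv p n := by
  induction n with
  | zero => exact sg_gx p
  | succ n ih => rw [av_succ, bv_succ, sg_sub, sg_mul, sg_mul, ih, sg_D1]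

theorem sg_bv (n : ℕ) : sg p (bv p n) = av p n := by
  rw [← sg_av, sg_sg]

include hp hroot in
theorem sg_Dv (n : ℕ) : sg p (Dv p n) = Dv p n := by
  rcases n with _ | n
  · rw [Dv_zero, sg_alg]
  · have h : av p 0 * bv p n - p⁻¹ • (bv p n * av p 0) = Dv p (0+n+1) :=
      CC_all p hp hroot _ _ (serre_xy p) (serre_yx p) 0 n
    rw [Nat.zero_add] at h
    rw [Dv_succ, sg_sub, sg_smul, sg_mul, sg_mul, sg_av, sg_gy, ← Dv_succ, ← h]
    rfl

theorem SS_top (u : V p) : u ∈ SS p (Set.range (av p)) 0 := by
  induction u using ind p with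
  | hs r => exact Subalgebra.algebraMap_mem _ _
  | hx => exact G_mem p _ ⟨0, rfl⟩
  | hy => exact bv_mem p _ (m := 0) le_rfl
  | hadd u v h1 h2 => exact Subalgebra.add_mem _ h1 h2
  | hmul u v h1 h2 => exact Subalgebra.mul_mem _ h1 h2

include hp hroot in
theorem sg_phase {u : V p} (hu : u ∈ Algebra.adjoin K (Set.range (Dv p) ∪ Set.range (av p))) :
    sg p u ∈ SS p ∅ 0 := by
  induction hu using Algebra.adjoin_induction with
  | mem x hx =>
    rcases hx with ⟨m, rfl⟩ | ⟨m, rfl⟩
    · rw [sg_Dv p hp hroot]; exact Dv_mem p _ _ _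
    · rw [sg_av]; exact bv_mem p _ (Nat.zero_le _)
  | algebraMap r => rw [sg_alg]; exact Subalgebra.algebraMap_mem _ _
  | add x y _ _ h1 h2 => rw [sg_add]; exact Subalgebra.add_mem _ h1 h2
  | mul x y _ _ h1 h2 => rw [sg_mul]; exact Subalgebra.mul_mem _ h2 h1

include hp hroot in
theorem sg_adj {u : V p} (hu : u ∈ Algebra.adjoin K (Set.range (Dv p))) :
    sg p u ∈ Algebra.adjoin K (Set.range (Dv p)) := by
  induction hu using Algebra.adjoin_induction with
  | mem x hx =>
    rcases hx with ⟨m, rfl⟩
    rw [sg_Dv p hp hroot]; exact Algebra.subset_adjoin ⟨m, rfl⟩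
  | algebraMap r => rw [sg_alg]; exact Subalgebra.algebraMap_mem _ _
  | add x y _ _ h1 h2 => rw [sg_add]; exact Subalgebra.add_mem _ h1 h2
  | mul x y _ _ h1 h2 => rw [sg_mul]; exact Subalgebra.mul_mem _ h2 h1

include hp hroot in
theorem central_mem {w : V p} (h1 : w * gx p = gx p * w) (h2 : w * gy p = gy p * w) :
    w ∈ Algebra.adjoin K (Set.range (Dv p)) := by
  obtain ⟨k1, k2⟩ := central_killed p hp hroot h1 h2
  have hA : w ∈ Algebra.adjoin K (Set.range (Dv p) ∪ Set.range (av p)) :=
    inter_SS p _ (le_refl _)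
      (all_peel p hp hroot _ (le_refl _) (SS_top p w) k2 k1)
  have hB := sg_phase p hp hroot hA
  have h1' : sg p w * gx p = gx p * sg p w := by
    have := congrArg (sg p) h2
    rw [sg_mul, sg_mul, sg_gy] at this
    exact this.symm
  have h2' : sg p w * gy p = gy p * sg p w := by
    have := congrArg (sg p) h1
    rw [sg_mul, sg_mul, sg_gx] at this
    exact this.symm
  obtain ⟨k3, k4⟩ := central_killed p hp hroot h1' h2'
  have hC := inter_SS p ∅ (Set.empty_subset _)
      (all_peel p hp hroot ∅ (Set.empty_subset _) hB k4 k3)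
  rw [Set.union_empty] at hC
  have hD := sg_adj p hp hroot hC
  rwa [sg_sg] at hD

/-! ### The evaluation map -/

include hp hroot in
theorem icD : IsMulCommutative (Algebra.adjoin K (Set.range (Dv p))) :=
  Algebra.isMulCommutative_adjoin K (by
    rintro _ ⟨k, rfl⟩ _ ⟨l, rfl⟩
    exact DD_comm p hp hroot _ _ (serre_xy p) (serre_yx p) k l)

open scoped IsMulCommutative in
/-- Evaluation at the imaginary vectors. -/
noncomputable def ev : MvPolynomial ℕ K →ₐ[K] V p :=
  haveI := icD p hp hroot
  (Algebra.adjoin K (Set.range (Dv p))).val.comp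
    (MvPolynomial.aeval (fun n => (⟨Dv p (n+1), Algebra.subset_adjoin ⟨n+1, rfl⟩⟩ :
      Algebra.adjoin K (Set.range (Dv p)))))

open scoped IsMulCommutative in
theorem ev_X (n : ℕ) : ev p hp hroot (MvPolynomial.X n) = Dv p (n+1) := by
  have := icD p hp hroot
  unfold ev
  rw [AlgHom.comp_apply, MvPolynomial.aeval_X]
  rfl

theorem ev_mem (P : MvPolynomial ℕ K) :
    ev p hp hroot P ∈ Algebra.adjoin K (Set.range (Dv p)) := by
  unfold ev
  rw [AlgHom.comp_apply]
  exact Subtype.property _

theorem ev_surj {w : V p} (hw : w ∈ Algebra.adjoin K (Set.range (Dv p))) :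
    ∃ P, ev p hp hroot P = w := by
  have h : Algebra.adjoin K (Set.range (Dv p)) ≤ (ev p hp hroot).range := by
    apply Algebra.adjoin_le
    rintro _ ⟨n, rfl⟩
    rcases n with _ | n
    · exact ⟨algebraMap K _ (-(p - p⁻¹)⁻¹), (ev p hp hroot).commutes _⟩
    · exact ⟨MvPolynomial.X n, ev_X p hp hroot n⟩
  exact h hw

/-- The scalar `D_0`. -/
noncomputable def d0 (p : K) : K := -(p - p⁻¹)⁻¹

/-- Polynomial version of `D_n`. -/
noncomputable def XX : ℕ → MvPolynomial ℕ K
  | 0 => MvPolynomial.C (d0 p)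
  | n+1 => MvPolynomial.X n

theorem ev_XX (n : ℕ) : ev p hp hroot (XX p n) = Dv p n := by
  rcases n with _ | n
  · exact (ev p hp hroot).commutes _
  · exact ev_X p hp hroot n

open Polynomial in
/-- The transform of `D_n`. -/
noncomputable def TX : ℕ → (MvPolynomial ℕ K)[X]
  | 0 => C (XX p 0)
  | n+1 => C (XX p (n+1)) - p⁻¹ • (X * C (XX p n)) + p • (X * TX n)

open Polynomial in
/-- The transformation homomorphism. -/
noncomputable def TAU : MvPolynomial ℕ K →ₐ[K] (MvPolynomial ℕ K)[X] :=
  MvPolynomial.aeval (fun n => TX p (n+1))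

open Polynomial in
/-- Linear operator `f ↦ ∑ ev(f_j) a_{m+j}`. -/
noncomputable def LL (m : ℕ) : (MvPolynomial ℕ K)[X] →ₗ[K] V p :=
  Polynomial.lsum (fun j => (LinearMap.mulRight K (av p (m+j))) ∘ₗ (ev p hp hroot).toLinearMap)

open Polynomial in
theorem LL_monomial (m j : ℕ) (c : MvPolynomial ℕ K) :
    LL p hp hroot m (monomial j c) = ev p hp hroot c * av p (m+j) := by
  unfold LL
  rw [Polynomial.lsum_apply, Polynomial.sum_monomial_index]
  · rfl
  · rw [map_zero]

open Polynomial in
theorem LL_C (m : ℕ) (c : MvPolynomial ℕ K) :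
    LL p hp hroot m (C c) = ev p hp hroot c * av p m := by
  rw [← monomial_zero_left, LL_monomial, Nat.add_zero]

open Polynomial in
theorem LL_monomial_mul (m j : ℕ) (c : MvPolynomial ℕ K) (g : (MvPolynomial ℕ K)[X]) :
    LL p hp hroot m (monomial j c * g) = ev p hp hroot c * LL p hp hroot (m+j) g := by
  induction g using Polynomial.induction_on' with
  | add f g hf hg => rw [mul_add, map_add, map_add, hf, hg, mul_add]
  | monomial i d =>
    rw [monomial_mul_monomial, LL_monomial, LL_monomial, map_mul, mul_assoc, Nat.add_assoc]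

open Polynomial in
theorem LL_X_mul (m : ℕ) (g : (MvPolynomial ℕ K)[X]) :
    LL p hp hroot m (X * g) = LL p hp hroot (m+1) g := by
  rw [← monomial_one_one_eq_X, LL_monomial_mul, map_one, one_mul]

open Polynomial in
theorem av_Dv (n : ℕ) : ∀ m, av p m * Dv p n = LL p hp hroot m (TX p n) := by
  induction n with
  | zero =>
    intro m
    rw [TX, LL_C, ev_XX, Dv_zero, Algebra.commutes]
  | succ n ih =>
    intro m
    have h2 : Dv p (n+1) * av p m - av p m * Dv p (n+1)
        = p⁻¹ • (Dv p n * av p (m+1)) - p • (av p (m+1) * Dv p n) :=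
      FA_final p hp hroot _ _ (serre_xy p) (serre_yx p) n m
    rw [TX, map_add, map_sub, map_smul, map_smul, LL_X_mul, LL_X_mul, LL_C, LL_C, ← ih, ev_XX,
      ev_XX]
    linear_combination (norm := skip) - h2
    match_scalars <;> ring

open Polynomial in
theorem LL_mul (P : MvPolynomial ℕ K) (g : (MvPolynomial ℕ K)[X])
    (h : ∀ m, av p m * ev p hp hroot P = LL p hp hroot m g) (f : (MvPolynomial ℕ K)[X]) :
    ∀ m, LL p hp hroot m f * ev p hp hroot P = LL p hp hroot m (f * g) := by
  induction f using Polynomial.induction_on' with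
  | add f g hf hg => intro m; rw [map_add, add_mul, add_mul, map_add, hf, hg]
  | monomial j c =>
    intro m
    rw [LL_monomial, mul_assoc, h, LL_monomial_mul]

theorem av_ev (P : MvPolynomial ℕ K) : ∀ m, av p m * ev p hp hroot P
    = LL p hp hroot m (TAU p P) := by
  induction P using MvPolynomial.induction_on with
  | C a =>
    intro m
    have h1 : ev p hp hroot (MvPolynomial.C a) = algebraMap K _ a := (ev p hp hroot).commutes a
    have h2 : TAU p (MvPolynomial.C a) = Polynomial.C (MvPolynomial.C a) := by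
      have := (TAU p).commutes a
      exact this
    rw [h2, LL_C, h1, Algebra.commutes]
  | add P Q h1 h2 => intro m; rw [map_add, mul_add, map_add, map_add, h1, h2]
  | mul_X P n h =>
    intro m
    have h1 : ∀ m, av p m * ev p hp hroot (MvPolynomial.X n)
        = LL p hp hroot m (TAU p (MvPolynomial.X n)) := by
      intro m
      rw [ev_X, av_Dv p hp hroot]
      unfold TAU
      rw [MvPolynomial.aeval_X]
    rw [map_mul, ← mul_assoc, h, LL_mul p hp hroot _ _ h1, ← map_mul]

open Polynomial in
theorem LL_eq_sum (f : (MvPolynomial ℕ K)[X]) :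
    LL p hp hroot 0 f = ∑ j ∈ Finset.range (f.natDegree + 1), ev p hp hroot (f.coeff j) * av p j := by
  unfold LL
  rw [Polynomial.lsum_apply, Polynomial.sum_over_range]
  · apply Finset.sum_congr rfl
    intro j _
    rw [Nat.zero_add]; rfl
  · intro n; rw [map_zero]

open Polynomial in
theorem LL_inj (f : (MvPolynomial ℕ K)[X]) (hf : LL p hp hroot 0 f = 0) (j : ℕ) :
    ev p hp hroot (f.coeff j) = 0 := by
  rcases Nat.lt_or_ge j (f.natDegree + 1) with hj | hj
  · rw [LL_eq_sum] at hf
    have h1 := congrArg (sg p) hf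
    rw [sg_sum, sg_zero] at h1
    have h2 : ∑ j ∈ Finset.range (f.natDegree + 1), bv p j * sg p (ev p hp hroot (f.coeff j))
        = 0 := by
      rw [← h1]
      apply Finset.sum_congr rfl
      intro j _
      rw [sg_mul, sg_av]
    have h3 := b_indep p hp hroot _ (fun j => sg p (ev p hp hroot (f.coeff j)))
      (fun j => sg_adj p hp hroot (ev_mem p hp hroot _)) h2 j hj
    have h4 := congrArg (sg p) h3
    rwa [sg_sg, sg_zero] at h4
  · rw [Polynomial.coeff_eq_zero_of_natDegree_lt (by omega), map_zero]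

open Polynomial in
/-- Specialisation of the transformation at `t = l`. -/
noncomputable def tl (l : K) : MvPolynomial ℕ K →ₐ[K] MvPolynomial ℕ K :=
  MvPolynomial.aeval (fun n => (TX p (n+1)).eval (MvPolynomial.C l))

open Polynomial in
theorem tl_eq (l : K) (P : MvPolynomial ℕ K) :
    tl p l P = (TAU p P).eval (MvPolynomial.C l) := by
  induction P using MvPolynomial.induction_on with
  | C a =>
    have h1 : tl p l (MvPolynomial.C a) = MvPolynomial.C a := (tl p l).commutes a
    have h2 : TAU p (MvPolynomial.C a) = Polynomial.C (MvPolynomial.C a) := (TAU p).commutes a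
    rw [h1, h2, eval_C]
  | add P Q h1 h2 => rw [map_add, map_add, eval_add, h1, h2]
  | mul_X P n h =>
    rw [map_mul, map_mul, eval_mul, h]
    congr 1
    unfold tl TAU
    rw [MvPolynomial.aeval_X, MvPolynomial.aeval_X]

open Polynomial in
theorem ev_tl (l : K) (P : MvPolynomial ℕ K)
    (hP : ev p hp hroot P * gx p = gx p * ev p hp hroot P) :
    ev p hp hroot (tl p l P) = ev p hp hroot P := by
  have h1 : LL p hp hroot 0 (TAU p P - C P) = 0 := by
    rw [map_sub, ← av_ev, LL_C, sub_eq_zero]
    exact hP.symm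
  have h2 := LL_inj p hp hroot _ h1
  have h3 : tl p l P - P = (TAU p P - C P).eval (MvPolynomial.C l) := by
    rw [eval_sub, eval_C, tl_eq]
  have h4 : ev p hp hroot (tl p l P - P) = 0 := by
    rw [h3, eval_eq_sum_range, map_sum]
    apply Finset.sum_eq_zero
    intro j _
    rw [map_mul, h2 j, zero_mul]
  rw [map_sub] at h4
  exact sub_eq_zero.mp h4

/-- The augmentation. -/
noncomputable def aug : V p →ₐ[K] K :=
  lift p (0 : K) (0 : K) (by unfold Serre; simp) (by unfold Serre; simp)

theorem aug_gx : aug p (gx p) = 0 := lift_gx _ _ _ _ _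
theorem aug_gy : aug p (gy p) = 0 := lift_gy _ _ _ _ _

theorem aug_Dv_succ (n : ℕ) : aug p (Dv p (n+1)) = 0 := by
  rw [Dv_succ, map_sub, map_smul, map_mul, map_mul, aug_gy, mul_zero, zero_mul, smul_zero,
    sub_zero]

theorem aug_ev (P : MvPolynomial ℕ K) :
    aug p (ev p hp hroot P) = MvPolynomial.constantCoeff P := by
  induction P using MvPolynomial.induction_on with
  | C a =>
    have h1 : ev p hp hroot (MvPolynomial.C a) = algebraMap K _ a := (ev p hp hroot).commutes a
    rw [h1, AlgHom.commutes, MvPolynomial.constantCoeff_C]; rfl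
  | add P Q h1 h2 => rw [map_add, map_add, map_add, h1, h2]
  | mul_X P n h =>
    rw [map_mul, map_mul, map_mul, ev_X, aug_Dv_succ, MvPolynomial.constantCoeff_X, mul_zero,
      mul_zero]

theorem evs_tl (f : ℕ → K) (hf : f 0 = d0 p) (l : K) (P : MvPolynomial ℕ K) :
    StepC.evs f (tl p l P) = StepC.evs (StepC.mulg f (p⁻¹ * l) (p * l)) P := by
  have hXX : ∀ n, StepC.evs f (XX p n) = f n := by
    intro n
    rcases n with _ | n
    · unfold StepC.evs XX
      rw [MvPolynomial.aeval_C, hf]; rfl
    · unfold StepC.evs XX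
      rw [MvPolynomial.aeval_X]
  have hT : ∀ n, StepC.evs f ((TX p n).eval (MvPolynomial.C l))
      = StepC.mulg f (p⁻¹ * l) (p * l) n := by
    intro n
    have hCl : StepC.evs f (MvPolynomial.C l) = l := (StepC.evs f).commutes l
    induction n with
    | zero => rw [TX, Polynomial.eval_C, hXX]; rfl
    | succ n ih =>
      rw [TX, StepC.mulg, Polynomial.eval_add, Polynomial.eval_sub, Polynomial.eval_smul,
        Polynomial.eval_smul, Polynomial.eval_mul, Polynomial.eval_mul, Polynomial.eval_X,
        Polynomial.eval_C, Polynomial.eval_C, map_add, map_sub, map_smul, map_smul, map_mul,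
        map_mul, ih, hXX, hXX, hCl, smul_eq_mul, smul_eq_mul]
      ring
  have h := MvPolynomial.algHom_ext (R := K) (A := K) (σ := ℕ)
    (f := (StepC.evs f).comp (tl p l)) (g := StepC.evs (StepC.mulg f (p⁻¹ * l) (p * l)))
    (by
      intro n
      rw [AlgHom.comp_apply]
      unfold tl
      rw [MvPolynomial.aeval_X, hT]
      unfold StepC.evs
      rw [MvPolynomial.aeval_X])
  exact DFunLike.congr_fun h P

include hp hroot in
theorem central_scalar [IsAlgClosed K] {w : V p} (h1 : w * gx p = gx p * w)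
    (h2 : w * gy p = gy p * w) : ∃ r : K, w = algebraMap K _ r := by
  obtain ⟨P, hP⟩ := ev_surj p hp hroot (central_mem p hp hroot h1 h2)
  let J : Set (MvPolynomial ℕ K) :=
    {u | ev p hp hroot u * gx p = gx p * ev p hp hroot u ∧ aug p (ev p hp hroot u) = 0}
  have hJ0 : ∀ u ∈ J, MvPolynomial.constantCoeff u = 0 := by
    intro u hu
    rw [← aug_ev p hp hroot]
    exact hu.2
  have hJtl : ∀ u ∈ J, ∀ l : K, tl p l u ∈ J := by
    intro u hu l
    have h3 := ev_tl p hp hroot l u hu.1
    change ev p hp hroot (tl p l u) * gx p = gx p * ev p hp hroot (tl p l u) ∧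
      aug p (ev p hp hroot (tl p l u)) = 0
    rw [h3]
    exact hu
  have hJ : ∀ f, StepC.Good (d0 p) J f → ∀ t : K,
      StepC.Good (d0 p) J (StepC.mulg f (p⁻¹ * t) (p * t)) := by
    intro f hf t
    refine ⟨hf.1, fun u hu => ?_⟩
    rw [← evs_tl p f hf.1]
    exact hf.2 _ (hJtl u hu t)
  have hd0 : d0 p ≠ 0 := neg_ne_zero.mpr (inv_ne_zero (kappa_ne p hp hroot))
  have hu : P - MvPolynomial.C (aug p w) ∈ J := by
    have h4 : ev p hp hroot (MvPolynomial.C (aug p w)) = algebraMap K _ (aug p w) :=
      (ev p hp hroot).commutes _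
    change ev p hp hroot (P - MvPolynomial.C (aug p w)) * gx p
      = gx p * ev p hp hroot (P - MvPolynomial.C (aug p w)) ∧
      aug p (ev p hp hroot (P - MvPolynomial.C (aug p w))) = 0
    rw [map_sub, hP, h4]
    constructor
    · rw [sub_mul, mul_sub, h1, Algebra.commutes]
    · rw [map_sub, AlgHom.commutes]
      exact sub_self _
  have h5 := StepC.rigid p (d0 p) hp hroot J hJ hd0 hJ0 _ hu
  refine ⟨aug p w, ?_⟩
  rw [← hP]
  conv_lhs => rw [sub_eq_zero.mp h5]
  rw [hP]
  exact (ev p hp hroot).commutes _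

include hp hroot in
theorem center_V [IsAlgClosed K] : Subalgebra.center K (V p) = ⊥ := by
  rw [eq_bot_iff]
  intro w hw
  rw [Subalgebra.mem_center_iff] at hw
  obtain ⟨r, hr⟩ := central_scalar p hp hroot (hw (gx p)).symm (hw (gy p)).symm
  rw [hr]
  exact Subalgebra.algebraMap_mem _ _

theorem inj_V : Function.Injective (algebraMap K (V p)) := by
  intro r s h
  have h2 := congrArg (aug p) h
  rw [AlgHom.commutes, AlgHom.commutes] at h2
  exact h2

end Pool.Agent.TH35.QAlg
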